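import Mathlib

/-!
# Melchior's inequality in coordinates

For a finite set of points of the real plane with pairwise different first coordinates, not all
on a line, the number of incidences between the points and the lines they determine is at most
three times the number of lines, minus three.
-/

namespace Pool.Agent.Lib.MP_9f1016_co

open Finset

section Coordinates

variable {α Λ : Type*}

/-- orientation determinant of three points with coordinates `a`, `b` -/
def D (a b : α → ℝ) (p q r : α) : ℝ :=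
  (a q - a p) * (b r - b p) - (a r - a p) * (b q - b p)

/-- slope -/
noncomputable def sl (a b : α → ℝ) (p q : α) : ℝ := (b q - b p) / (a q - a p)

theorem D_eq_sl (a b : α → ℝ) {p q e x : α} (h1 : a p ≠ a q) (h2 : D a b p q e = 0)
    (h3 : a x ≠ a e) :
    D a b p q x = (a q - a p) * (a x - a e) * (sl a b e x - sl a b p q) := by
  have h1' : a q - a p ≠ 0 := sub_ne_zero.2 (Ne.symm h1)
  have h3' : a x - a e ≠ 0 := sub_ne_zero.2 h3
  unfold D sl at *
  field_simp
  linear_combination h2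

theorem cyc_contra {s1 s2 s : ℝ} (h12 : s1 ≠ s2) (h1 : s ≠ s1) (h2 : s ≠ s2)
    (ha : 1 / (s2 - s1) ≤ 1 / (s - s1)) (hb : 1 / (s1 - s2) ≤ 1 / (s - s2)) : False := by
  wlog h : s1 < s2 generalizing s1 s2
  · exact this (Ne.symm h12) h2 h1 hb ha (lt_of_le_of_ne (not_lt.1 h) (Ne.symm h12))
  have hd : 0 < s2 - s1 := sub_pos.2 h
  have h3 : 0 < s - s1 := by
    have : 0 < 1 / (s - s1) := lt_of_lt_of_le (one_div_pos.2 hd) ha
    exact one_div_pos.1 this
  have h4 : s - s1 ≤ s2 - s1 := le_of_one_div_le_one_div hd ha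
  have h5 : s - s2 < 0 := lt_of_le_of_ne (by linarith) (sub_ne_zero.2 h2)
  have h6 : 1 / (s2 - s) ≤ 1 / (s2 - s1) := by
    have e1 : 1 / (s2 - s) = -(1 / (s - s2)) := by
      rw [← neg_sub s s2, one_div_neg_eq_neg_one_div]
    have e2 : 1 / (s2 - s1) = -(1 / (s1 - s2)) := by
      rw [← neg_sub s1 s2, one_div_neg_eq_neg_one_div]
    rw [e1, e2]
    linarith
  have h7 : s2 - s1 ≤ s2 - s := le_of_one_div_le_one_div (by linarith) h6
  linarith

/-- `p`, `q` are consecutive points of `S` on the line they span -/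
def Wedge (S : Finset α) (a b : α → ℝ) (p q : α) : Prop :=
  a p < a q ∧ ∀ r ∈ S, D a b p q r = 0 → ¬ (a p < a r ∧ a r < a q)

/-- the relation between a wedge `(p, q)` and a pair `(e, k)` -/
def Rel (S : Finset α) (a b : α → ℝ) (p q e k : α) : Prop :=
  ((e = p ∧ 0 < D a b p q k) ∨ (e = q ∧ D a b p q k < 0)) ∧
  (∀ x ∈ S, D a b p q x ≠ 0 → (a x - a e) / D a b p q x ≤ (a k - a e) / D a b p q k) ∧
  (∀ x ∈ S, D a b e k x = 0 → x ≠ e → 0 < D a b p q x * D a b p q k ∧ 0 < (a x - a e) * (a k - a e))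

theorem exists_rel {S : Finset α} {a b : α → ℝ} (ha : Set.InjOn a S) {p q : α} (hp : p ∈ S)
    (hq : q ∈ S) (hpq : a p < a q) (hne : ∃ r ∈ S, D a b p q r ≠ 0) :
    ∃ e ∈ S, ∃ k ∈ S, k ≠ e ∧ Rel S a b p q e k := by
  classical
  obtain ⟨r, hr, hr'⟩ := hne
  obtain ⟨⟨k, e⟩, hke, hmax⟩ := Finset.exists_max_image
    ((S.filter fun x => D a b p q x ≠ 0) ×ˢ ({p, q} : Finset α))
    (fun z => (a z.1 - a z.2) / D a b p q z.1) ⟨(r, p), by simp [hr, hr']⟩
  simp only [mem_product, mem_filter, mem_insert, mem_singleton] at hke hmax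
  obtain ⟨⟨hkS, hkD⟩, he⟩ := hke
  have heS : e ∈ S := by rcases he with rfl | rfl <;> assumption
  have heD : D a b p q e = 0 := by rcases he with rfl | rfl <;> simp [D, mul_comm]
  have hke : k ≠ e := fun h => hkD (h ▸ heD)
  have hδ : 0 < a q - a p := sub_pos.2 hpq
  have hsign : ∀ x ∈ S, D a b p q x ≠ 0 →
      (a x - a e) / D a b p q x = (a k - a e) / D a b p q k →
      ((e = p ∧ 0 < D a b p q x) ∨ (e = q ∧ D a b p q x < 0)) := by
    intro x hx hxD hEq
    have hdiff : (a x - a p) / D a b p q x - (a x - a q) / D a b p q x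
        = (a q - a p) / D a b p q x := by
      field_simp
      ring
    rcases he with rfl | rfl
    · left
      refine ⟨rfl, ?_⟩
      have h1 := hmax (x, q) ⟨⟨hx, hxD⟩, Or.inr rfl⟩
      have h2 : 0 ≤ (a q - a e) / D a b e q x := by
        simp only at h1
        linarith
      by_contra h3
      have h4 : D a b e q x < 0 := lt_of_le_of_ne (not_lt.1 h3) hxD
      have := div_neg_of_pos_of_neg hδ h4
      linarith
    · right
      refine ⟨rfl, ?_⟩
      have h1 := hmax (x, p) ⟨⟨hx, hxD⟩, Or.inl rfl⟩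
      have h2 : (a e - a p) / D a b p e x ≤ 0 := by
        simp only at h1
        linarith
      by_contra h3
      have h4 : 0 < D a b p e x := lt_of_le_of_ne (not_lt.1 h3) (Ne.symm hxD)
      have := div_pos hδ h4
      linarith
  refine ⟨e, heS, k, hkS, hke, hsign k hkS hkD rfl, fun x hx hxD => hmax (x, e) ⟨⟨hx, hxD⟩, he⟩, ?_⟩
  intro x hx hxl hxe
  have hak : a k - a e ≠ 0 := sub_ne_zero.2 fun h => hke (ha hkS heS h)
  have hax : a x - a e ≠ 0 := sub_ne_zero.2 fun h => hxe (ha hx heS h)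
  have hlin : (a x - a e) * D a b p q k = (a k - a e) * D a b p q x := by
    unfold D at *
    linear_combination (a x - a k) * heD - (a q - a p) * hxl
  have hxD : D a b p q x ≠ 0 := by
    intro h
    rw [h, mul_zero] at hlin
    exact (mul_ne_zero hax hkD) hlin
  have hEq : (a x - a e) / D a b p q x = (a k - a e) / D a b p q k := by
    rw [div_eq_div_iff hxD hkD]
    exact hlin
  have hpos : 0 < D a b p q x * D a b p q k := by
    have hne : p ≠ q := fun h => by rw [h] at hpq; exact lt_irrefl _ hpq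
    rcases hsign x hx hxD hEq with ⟨h1, h2⟩ | ⟨h1, h2⟩ <;>
      rcases hsign k hkS hkD rfl with ⟨h3, h4⟩ | ⟨h3, h4⟩
    · exact mul_pos h2 h4
    · exact absurd (h1.symm.trans h3) hne
    · exact absurd (h3.symm.trans h1) hne
    · exact mul_pos_of_neg_of_neg h2 h4
  refine ⟨hpos, ?_⟩
  have h1 : (a x - a e) * (a k - a e) * (D a b p q k * D a b p q k)
      = (a k - a e) * (a k - a e) * (D a b p q x * D a b p q k) := by
    linear_combination (a k - a e) * D a b p q k * hlin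
  have h2 : 0 < (a k - a e) * (a k - a e) := mul_self_pos.2 hak
  have h3 : 0 < D a b p q k * D a b p q k := mul_self_pos.2 hkD
  have h4 := mul_pos h2 hpos
  rw [← h1] at h4
  exact (mul_pos_iff_of_pos_right h3).1 h4

theorem rel_unique {S : Finset α} {a b : α → ℝ} (ha : Set.InjOn a S)
    {p1 q1 p2 q2 e k1 k2 : α} (hp1 : p1 ∈ S) (hq1 : q1 ∈ S) (hp2 : p2 ∈ S) (hq2 : q2 ∈ S)
    (hk1 : k1 ∈ S) (hk2 : k2 ∈ S) (hk1e : k1 ≠ e) (hk2e : k2 ≠ e)
    (w1 : Wedge S a b p1 q1) (w2 : Wedge S a b p2 q2)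
    (r1 : Rel S a b p1 q1 e k1) (r2 : Rel S a b p2 q2 e k2) (hk : D a b e k1 k2 = 0) :
    p1 = p2 ∧ q1 = q2 := by
  have heS : e ∈ S := by rcases r1.1 with ⟨rfl, -⟩ | ⟨rfl, -⟩ <;> assumption
  have hδ1 : 0 < a q1 - a p1 := sub_pos.2 w1.1
  have hδ2 : 0 < a q2 - a p2 := sub_pos.2 w2.1
  have he1 : D a b p1 q1 e = 0 := by rcases r1.1 with ⟨rfl, -⟩ | ⟨rfl, -⟩ <;> simp [D, mul_comm]
  have he2 : D a b p2 q2 e = 0 := by rcases r2.1 with ⟨rfl, -⟩ | ⟨rfl, -⟩ <;> simp [D, mul_comm]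
  have hD1 : D a b p1 q1 k1 ≠ 0 := by
    rcases r1.1 with ⟨-, h⟩ | ⟨-, h⟩
    · exact h.ne'
    · exact h.ne
  have hD2 : D a b p2 q2 k2 ≠ 0 := by
    rcases r2.1 with ⟨-, h⟩ | ⟨-, h⟩
    · exact h.ne'
    · exact h.ne
  have hak1 : a k1 ≠ a e := fun h => hk1e (ha hk1 heS h)
  have hak2 : a k2 ≠ a e := fun h => hk2e (ha hk2 heS h)
  have hsl : sl a b e k2 = sl a b e k1 := by
    have h := D_eq_sl a b (p := e) (q := k1) (e := e) (x := k2) (Ne.symm hak1) (by simp [D]) hak2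
    rw [hk] at h
    have h1 : (a k1 - a e) * (a k2 - a e) ≠ 0 :=
      mul_ne_zero (sub_ne_zero.2 hak1) (sub_ne_zero.2 hak2)
    have h2 := (mul_eq_zero.1 h.symm).resolve_left h1
    exact sub_eq_zero.1 h2
  have E1 := D_eq_sl a b w1.1.ne he1 hak1
  have E2 := D_eq_sl a b w2.1.ne he2 hak2
  obtain ⟨f1, hf1S, hf1e, hf1⟩ : ∃ f ∈ S, a f ≠ a e ∧ sl a b e f = sl a b p1 q1 := by
    rcases r1.1 with ⟨rfl, -⟩ | ⟨rfl, -⟩
    · exact ⟨q1, hq1, w1.1.ne', rfl⟩
    · refine ⟨p1, hp1, w1.1.ne, ?_⟩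
      unfold sl
      rw [← neg_sub (b e), ← neg_sub (a e), neg_div_neg_eq]
  obtain ⟨f2, hf2S, hf2e, hf2⟩ : ∃ f ∈ S, a f ≠ a e ∧ sl a b e f = sl a b p2 q2 := by
    rcases r2.1 with ⟨rfl, -⟩ | ⟨rfl, -⟩
    · exact ⟨q2, hq2, w2.1.ne', rfl⟩
    · refine ⟨p2, hp2, w2.1.ne, ?_⟩
      unfold sl
      rw [← neg_sub (b e), ← neg_sub (a e), neg_div_neg_eq]
  have hs1 : sl a b e k1 ≠ sl a b p1 q1 := by
    intro h
    rw [h, sub_self, mul_zero] at E1
    exact hD1 E1
  have hs2 : sl a b e k1 ≠ sl a b p2 q2 := by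
    intro h
    rw [hsl, h, sub_self, mul_zero] at E2
    exact hD2 E2
  have key : ∀ (δ u v s t : ℝ), 0 < δ → u ≠ 0 → v ≠ 0 →
      u / (δ * u * s) ≤ v / (δ * v * t) → 1 / s ≤ 1 / t := by
    intro δ u v s t hδ hu hv h
    have e1 : u / (δ * u * s) = (1 / s) / δ := by
      by_cases hs : s = 0
      · simp [hs]
      · field_simp
    have e2 : v / (δ * v * t) = (1 / t) / δ := by
      by_cases ht : t = 0
      · simp [ht]
      · field_simp
    rw [e1, e2] at h
    exact (div_le_div_iff_of_pos_right hδ).1 h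
  have hss : sl a b p1 q1 = sl a b p2 q2 := by
    by_contra hne
    have F1 := D_eq_sl a b w1.1.ne he1 hf2e
    have F2 := D_eq_sl a b w2.1.ne he2 hf1e
    rw [hf2] at F1
    rw [hf1] at F2
    have G1 : D a b p1 q1 f2 ≠ 0 := by
      rw [F1]
      exact mul_ne_zero (mul_ne_zero hδ1.ne' (sub_ne_zero.2 hf2e)) (sub_ne_zero.2 (Ne.symm hne))
    have G2 : D a b p2 q2 f1 ≠ 0 := by
      rw [F2]
      exact mul_ne_zero (mul_ne_zero hδ2.ne' (sub_ne_zero.2 hf1e)) (sub_ne_zero.2 hne)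
    have I1 := r1.2.1 f2 hf2S G1
    have I2 := r2.2.1 f1 hf1S G2
    rw [F1, E1] at I1
    rw [F2, E2, hsl] at I2
    exact cyc_contra hne hs1 hs2
      (key _ _ _ _ _ hδ1 (sub_ne_zero.2 hf2e) (sub_ne_zero.2 hak1) I1)
      (key _ _ _ _ _ hδ2 (sub_ne_zero.2 hf1e) (sub_ne_zero.2 hak2) I2)
  have hprop : ∀ x, (a q2 - a p2) * D a b p1 q1 x = (a q1 - a p1) * D a b p2 q2 x := by
    intro x
    have h1 : (a q2 - a p2) * (b q1 - b p1) = (a q1 - a p1) * (b q2 - b p2) := by
      unfold sl at hss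
      rw [div_eq_div_iff hδ1.ne' hδ2.ne'] at hss
      linear_combination hss
    unfold D at *
    linear_combination (a q2 - a p2) * he1 - (a q1 - a p1) * he2 - (a x - a e) * h1
  have hs := (r1.2.2 k2 hk2 hk hk2e).1
  have hk2p := hprop k2
  rcases r1.1 with ⟨h1, h2⟩ | ⟨h1, h2⟩ <;> rcases r2.1 with ⟨h3, h4⟩ | ⟨h3, h4⟩
  · subst h1
    subst h3
    refine ⟨rfl, ?_⟩
    have c1 : D a b e q1 q2 = 0 := by
      have := hprop q2
      have h0 : D a b e q2 q2 = 0 := by simp [D]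
      rw [h0, mul_zero] at this
      exact (mul_eq_zero.1 this).resolve_left hδ2.ne'
    have c2 : D a b e q2 q1 = 0 := by
      unfold D at c1 ⊢
      linear_combination -c1
    have n1 := w1.2 q2 hq2 c1
    have n2 := w2.2 q1 hq1 c2
    apply ha hq1 hq2
    have := w1.1
    have := w2.1
    rcases lt_trichotomy (a q1) (a q2) with h | h | h
    · exact absurd ⟨w1.1, h⟩ n2
    · exact h
    · exact absurd ⟨w2.1, h⟩ n1
  · exfalso
    have h5 : 0 < D a b p1 q1 k2 := (mul_pos_iff_of_pos_right h2).1 hs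
    nlinarith
  · exfalso
    have h5 : D a b p1 q1 k2 < 0 := by
      by_contra h6
      have := mul_nonpos_of_nonneg_of_nonpos (not_lt.1 h6) h2.le
      linarith
    nlinarith
  · subst h1
    subst h3
    refine ⟨?_, rfl⟩
    have c1 : D a b p1 e p2 = 0 := by
      have := hprop p2
      have h0 : D a b p2 e p2 = 0 := by simp [D]
      rw [h0, mul_zero] at this
      exact (mul_eq_zero.1 this).resolve_left hδ2.ne'
    have c2 : D a b p2 e p1 = 0 := by
      unfold D at c1 ⊢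
      linear_combination -c1
    have n1 := w1.2 p2 hp2 c1
    have n2 := w2.2 p1 hp1 c2
    apply ha hp1 hp2
    rcases lt_trichotomy (a p1) (a p2) with h | h | h
    · exact absurd ⟨h, w2.1⟩ n1
    · exact h
    · exact absurd ⟨h, w1.1⟩ n2

/-- a hull vertex with its counterclockwise hull edge -/
theorem exists_hull {S : Finset α} {a b : α → ℝ} (ha : Set.InjOn a S) {e : α} (he : e ∈ S)
    (u v : ℝ) (hmax : ∀ x ∈ S, x ≠ e → u * a x + v * b x < u * a e + v * b e)
    (hne : ∃ x ∈ S, x ≠ e) :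
    ∃ k ∈ S, k ≠ e ∧ (∀ x ∈ S, D a b e k x = 0 → x ≠ e → 0 < (a x - a e) * (a k - a e) ∧
      ∀ y ∈ S, 0 ≤ D a b e x y) := by
  classical
  obtain ⟨x0, hx0, hx0e⟩ := hne
  obtain ⟨k, hk, hkmax⟩ := Finset.exists_max_image (S.filter fun x => x ≠ e)
    (fun x => (u * (b x - b e) - v * (a x - a e)) / -(u * (a x - a e) + v * (b x - b e)))
    ⟨x0, by simp [hx0, hx0e]⟩
  simp only [mem_filter] at hk hkmax
  have hφ : ∀ x ∈ S, x ≠ e → 0 < -(u * (a x - a e) + v * (b x - b e)) := by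
    intro x hx hxe
    have := hmax x hx hxe
    linarith
  have huv : 0 < u ^ 2 + v ^ 2 := by
    by_contra h
    have hu : u = 0 := by nlinarith [sq_nonneg u, sq_nonneg v]
    have hv : v = 0 := by nlinarith [sq_nonneg u, sq_nonneg v]
    have := hφ x0 hx0 hx0e
    simp [hu, hv] at this
  have hk0 : ∀ y ∈ S, 0 ≤ D a b e k y := by
    intro y hy
    by_cases hye : y = e
    · simp [hye, D]
    have h1 := hkmax y ⟨hy, hye⟩
    have h2 := hφ y hy hye
    have h3 := hφ k hk.1 hk.2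
    rw [div_le_div_iff₀ h2 h3] at h1
    have h4 : (u ^ 2 + v ^ 2) * D a b e k y =
        (u * (b k - b e) - v * (a k - a e)) * -(u * (a y - a e) + v * (b y - b e)) -
        (u * (b y - b e) - v * (a y - a e)) * -(u * (a k - a e) + v * (b k - b e)) := by
      unfold D
      ring
    have h5 : 0 ≤ (u ^ 2 + v ^ 2) * D a b e k y := by linarith
    exact nonneg_of_mul_nonneg_right h5 huv
  refine ⟨k, hk.1, hk.2, fun x hx hxl hxe => ?_⟩
  have h2 := hφ x hx hxe
  have h3 := hφ k hk.1 hk.2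
  have hak : a k - a e ≠ 0 := sub_ne_zero.2 fun h => hk.2 (ha hk.1 he h)
  have h4 : (a x - a e) * -(u * (a k - a e) + v * (b k - b e))
      = (a k - a e) * -(u * (a x - a e) + v * (b x - b e)) := by
    unfold D at hxl
    linear_combination v * hxl
  have h5 : (b x - b e) * -(u * (a k - a e) + v * (b k - b e))
      = (b k - b e) * -(u * (a x - a e) + v * (b x - b e)) := by
    unfold D at hxl
    linear_combination (-u) * hxl
  constructor
  · have h6 : (a x - a e) * (a k - a e) * -(u * (a k - a e) + v * (b k - b e))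
        = (a k - a e) * (a k - a e) * -(u * (a x - a e) + v * (b x - b e)) := by
      linear_combination (a k - a e) * h4
    have h7 := mul_pos (mul_self_pos.2 hak) h2
    rw [← h6] at h7
    exact (mul_pos_iff_of_pos_right h3).1 h7
  · intro y hy
    have h6 : D a b e x y * -(u * (a k - a e) + v * (b k - b e))
        = D a b e k y * -(u * (a x - a e) + v * (b x - b e)) := by
      unfold D
      linear_combination (b y - b e) * h4 - (a y - a e) * h5
    have h7 := mul_nonneg (hk0 y hy) h2.le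
    rw [← h6] at h7
    exact nonneg_of_mul_nonneg_left h7 h3

theorem exists_three_hull {S : Finset α} {a b : α → ℝ} (ha : Set.InjOn a S)
    (hnc : ∃ p ∈ S, ∃ q ∈ S, ∃ r ∈ S, D a b p q r ≠ 0) :
    ∃ T : Finset α, T ⊆ S ∧ T.card = 3 ∧ ∀ e ∈ T, ∃ u v : ℝ,
      ∀ x ∈ S, x ≠ e → u * a x + v * b x < u * a e + v * b e := by
  classical
  obtain ⟨p, hp, q, hq, r, hr, hD⟩ := hnc
  obtain ⟨p1, hp1, h1⟩ := Finset.exists_min_image S a ⟨p, hp⟩
  obtain ⟨p2, hp2, h2⟩ := Finset.exists_max_image S a ⟨p, hp⟩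
  have h12 : a p1 < a p2 := by
    by_contra h
    have hall : ∀ x ∈ S, a x = a p1 := fun x hx =>
      le_antisymm ((h2 x hx).trans (not_lt.1 h)) (h1 x hx)
    apply hD
    unfold D
    rw [hall p hp, hall q hq, hall r hr]
    ring
  have hδ : 0 < a p2 - a p1 := sub_pos.2 h12
  obtain ⟨k, hk, hkD⟩ : ∃ k ∈ S, D a b p1 p2 k ≠ 0 := by
    by_contra h
    push Not at h
    apply hD
    have e1 := h p hp
    have e2 := h q hq
    have e3 := h r hr
    have : (a p2 - a p1) * D a b p q r = 0 := by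
      unfold D at *
      linear_combination (a r - a q) * e1 + (a p - a r) * e2 + (a q - a p) * e3
    exact (mul_eq_zero.1 this).resolve_left hδ.ne'
  have hk1 : k ≠ p1 := by
    rintro rfl
    exact hkD (by simp [D])
  have hk2 : k ≠ p2 := by
    rintro rfl
    exact hkD (by simp [D])
  have ha1 : 0 < a k - a p1 := sub_pos.2 (lt_of_le_of_ne (h1 k hk) fun h => hk1 (ha hk hp1 h.symm))
  have ha2 : 0 < a p2 - a k := sub_pos.2 (lt_of_le_of_ne (h2 k hk) fun h => hk2 (ha hk hp2 h))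
  have hsl : D a b p1 p2 k = (a k - a p1) * (a p2 - a k) * (sl a b p1 k - sl a b k p2) := by
    unfold D sl
    field_simp
    ring
  have gen : ∀ s t : ℝ, s < t → ∃ m : ℝ, s < m ∧ m < t ∧
      ∀ x ∈ S, ∀ y ∈ S, x ≠ y → b x - m * a x ≠ b y - m * a y := by
    intro s t hst
    obtain ⟨m, hm, hm'⟩ := (Set.Ioo_infinite hst).exists_notMem_finset
      ((S ×ˢ S).image fun z => sl a b z.1 z.2)
    refine ⟨m, hm.1, hm.2, fun x hx y hy hxy h => hm' ?_⟩
    refine Finset.mem_image.2 ⟨(x, y), by simp [hx, hy], ?_⟩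
    have : a y - a x ≠ 0 := sub_ne_zero.2 fun h => hxy (ha hx hy h.symm)
    unfold sl
    field_simp
    linarith
  obtain ⟨w, hw, hw1, hw2, u, v, huv⟩ : ∃ w ∈ S, w ≠ p1 ∧ w ≠ p2 ∧ ∃ u v : ℝ,
      ∀ x ∈ S, x ≠ w → u * a x + v * b x < u * a w + v * b w := by
    rcases lt_or_gt_of_ne hkD with hneg | hpos
    · have hlt : sl a b p1 k < sl a b k p2 := by
        by_contra h
        have := mul_nonneg (mul_pos ha1 ha2).le (sub_nonneg.2 (not_lt.1 h))
        linarith
      obtain ⟨m, hm1, hm2, hm⟩ := gen _ _ hlt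
      obtain ⟨w, hw, hwmin⟩ := Finset.exists_min_image S (fun x => b x - m * a x) ⟨p, hp⟩
      unfold sl at hm1 hm2
      rw [div_lt_iff₀ ha1] at hm1
      rw [lt_div_iff₀ ha2] at hm2
      have hwk := hwmin k hk
      refine ⟨w, hw, ?_, ?_, m, -1, fun x hx hxw => ?_⟩
      · rintro rfl
        linarith
      · rintro rfl
        linarith
      · have := lt_of_le_of_ne (hwmin x hx) (hm w hw x hx (Ne.symm hxw))
        linarith
    · have hlt : sl a b k p2 < sl a b p1 k := by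
        by_contra h
        have := mul_nonneg (mul_pos ha1 ha2).le (sub_nonneg.2 (not_lt.1 h))
        linarith
      obtain ⟨m, hm1, hm2, hm⟩ := gen _ _ hlt
      obtain ⟨w, hw, hwmax⟩ := Finset.exists_max_image S (fun x => b x - m * a x) ⟨p, hp⟩
      unfold sl at hm1 hm2
      rw [div_lt_iff₀ ha2] at hm1
      rw [lt_div_iff₀ ha1] at hm2
      have hwk := hwmax k hk
      refine ⟨w, hw, ?_, ?_, -m, 1, fun x hx hxw => ?_⟩
      · rintro rfl
        linarith
      · rintro rfl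
        linarith
      · have := lt_of_le_of_ne (hwmax x hx) (hm x hx w hw hxw)
        linarith
  have hp12 : p1 ≠ p2 := fun h => by rw [h] at h12; exact lt_irrefl _ h12
  refine ⟨{w, p1, p2}, ?_, ?_, ?_⟩
  · intro x hx
    simp only [mem_insert, mem_singleton] at hx
    rcases hx with rfl | rfl | rfl <;> assumption
  · rw [Finset.card_eq_three]
    exact ⟨w, p1, p2, hw1, hw2, hp12, rfl⟩
  · intro e he
    simp only [mem_insert, mem_singleton] at he
    rcases he with rfl | rfl | rfl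
    · exact ⟨u, v, huv⟩
    · refine ⟨-1, 0, fun x hx hxe => ?_⟩
      have := lt_of_le_of_ne (h1 x hx) fun h => hxe (ha hx hp1 h.symm)
      linarith
    · refine ⟨1, 0, fun x hx hxe => ?_⟩
      have := lt_of_le_of_ne (h2 x hx) fun h => hxe (ha hx hp2 h)
      linarith

open Classical in
/-- Melchior's inequality. -/
theorem melchior_coord (S : Finset α) (a b : α → ℝ) (ln : α → α → Λ) (on : α → Λ → Prop)
    (ha : Set.InjOn a S)
    (hon : ∀ p ∈ S, ∀ q ∈ S, p ≠ q → ∀ r ∈ S, (on r (ln p q) ↔ D a b p q r = 0))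
    (huniq : ∀ p ∈ S, ∀ q ∈ S, ∀ p' ∈ S, ∀ q' ∈ S, p ≠ q → p' ≠ q' → on p' (ln p q) →
      on q' (ln p q) → ln p' q' = ln p q)
    (hnc : ∃ p ∈ S, ∃ q ∈ S, ∃ r ∈ S, D a b p q r ≠ 0) :
    ∑ L ∈ S.offDiag.image (fun z => ln z.1 z.2), (S.filter fun x => on x L).card + 3 ≤
      3 * (S.offDiag.image (fun z => ln z.1 z.2)).card := by
  set 𝓛 := S.offDiag.image (fun z => ln z.1 z.2) with h𝓛
  have mem𝓛 : ∀ L, L ∈ 𝓛 ↔ ∃ p ∈ S, ∃ q ∈ S, p ≠ q ∧ ln p q = L := by
    intro L
    simp only [h𝓛, mem_image, mem_offDiag, Prod.exists]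
    constructor
    · rintro ⟨p, q, ⟨h1, h2, h3⟩, h4⟩
      exact ⟨p, h1, q, h2, h3, h4⟩
    · rintro ⟨p, h1, q, h2, h3, h4⟩
      exact ⟨p, q, ⟨h1, h2, h3⟩, h4⟩
  set Inc := (𝓛 ×ˢ S).filter fun z => on z.2 z.1 with hInc
  set Mx := Inc.filter fun z => ∀ x ∈ S, on x z.1 → a x ≤ a z.2 with hMx
  set Mn := Inc.filter fun z => ∀ x ∈ S, on x z.1 → a z.2 ≤ a x with hMn
  set Wd := (S ×ˢ S).filter fun z => Wedge S a b z.1 z.2 with hWd
  set Hl := (Mx ∪ Mn).filter fun z =>
    ∀ x ∈ S, on x z.1 → x ≠ z.2 → ∀ y ∈ S, 0 ≤ D a b z.2 x y with hHl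
  have hsum : ∑ L ∈ 𝓛, (S.filter fun x => on x L).card = Inc.card := by
    rw [hInc, Finset.card_filter, Finset.sum_product]
    simp only [Finset.card_filter]
  have hMxc : Mx.card ≤ 𝓛.card := by
    refine Finset.card_le_card_of_injOn (fun z => z.1) ?_ ?_
    · intro z hz
      simp only [hMx, hInc, coe_filter, mem_filter, mem_product, Set.mem_ofPred_eq] at hz
      exact hz.1.1.1
    · intro z hz z' hz' h
      simp only [hMx, hInc, coe_filter, mem_filter, mem_product, Set.mem_ofPred_eq] at hz hz' h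
      refine Prod.ext h (ha hz.1.1.2 hz'.1.1.2 (le_antisymm ?_ ?_))
      · exact hz'.2 _ hz.1.1.2 (h ▸ hz.1.2)
      · exact hz.2 _ hz'.1.1.2 (h ▸ hz'.1.2)
  have hMnc : Mn.card ≤ 𝓛.card := by
    refine Finset.card_le_card_of_injOn (fun z => z.1) ?_ ?_
    · intro z hz
      simp only [hMn, hInc, coe_filter, mem_filter, mem_product, Set.mem_ofPred_eq] at hz
      exact hz.1.1.1
    · intro z hz z' hz' h
      simp only [hMn, hInc, coe_filter, mem_filter, mem_product, Set.mem_ofPred_eq] at hz hz' h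
      refine Prod.ext h (ha hz.1.1.2 hz'.1.1.2 (le_antisymm ?_ ?_))
      · exact hz.2 _ hz'.1.1.2 (h ▸ hz'.1.2)
      · exact hz'.2 _ hz.1.1.2 (h ▸ hz.1.2)
  have hoff : ∀ p ∈ S, ∀ q ∈ S, a p < a q → ∃ r ∈ S, D a b p q r ≠ 0 := by
    intro p1 _ p2 _ h12
    obtain ⟨p, hp, q, hq, r, hr, hD⟩ := hnc
    by_contra h
    push Not at h
    apply hD
    have e1 := h p hp
    have e2 := h q hq
    have e3 := h r hr
    have : (a p2 - a p1) * D a b p q r = 0 := by
      unfold D at *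
      linear_combination (a r - a q) * e1 + (a p - a r) * e2 + (a q - a p) * e3
    exact (mul_eq_zero.1 this).resolve_left (sub_pos.2 h12).ne'
  have h1 : (Inc \ Mx).card ≤ Wd.card := by
    refine Finset.card_le_card_of_forall_subsingleton
      (fun z w => w.1 = z.2 ∧ ln w.1 w.2 = z.1) ?_ ?_
    · rintro ⟨L, p⟩ hz
      simp only [hMx, hInc, mem_sdiff, mem_filter, mem_product, not_and, not_forall] at hz
      obtain ⟨⟨⟨hL, hp⟩, hpL⟩, hz⟩ := hz
      obtain ⟨x, hx, hxL, hxp⟩ := hz ⟨⟨hL, hp⟩, hpL⟩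
      obtain ⟨q, hq, hqmin⟩ := Finset.exists_min_image
        (S.filter fun y => on y L ∧ a p < a y) a ⟨x, by simp [hx, hxL, not_le.1 hxp]⟩
      simp only [mem_filter] at hq hqmin
      obtain ⟨p0, hp0, q0, hq0, hpq0, rfl⟩ := (mem𝓛 L).1 hL
      have hpq : p ≠ q := fun h => by rw [h] at hq; exact lt_irrefl _ hq.2.2
      have hL' := huniq p0 hp0 q0 hq0 p hp q hq.1 hpq0 hpq hpL hq.2.1
      refine ⟨(p, q), ?_, rfl, hL'⟩
      simp only [hWd, mem_filter, mem_product]
      refine ⟨⟨hp, hq.1⟩, hq.2.2, fun r hr hD hh => ?_⟩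
      have hr' : on r (ln p0 q0) := hL' ▸ (hon p hp q hq.1 hpq r hr).2 hD
      have := hqmin r ⟨hr, hr', hh.1⟩
      linarith [hh.2]
    · rintro ⟨p, q⟩ _ ⟨L, x⟩ h ⟨L', x'⟩ h'
      simp only [Set.mem_ofPred_eq] at h h'
      exact Prod.ext (h.2.2.symm.trans h'.2.2) (h.2.1.symm.trans h'.2.1)
  have h2 : Wd.card ≤ ((Mx ∪ Mn) \ Hl).card := by
    refine Finset.card_le_card_of_forall_subsingleton
      (fun w z => ∃ k ∈ S, k ≠ z.2 ∧ ln z.2 k = z.1 ∧ Rel S a b w.1 w.2 z.2 k) ?_ ?_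
    · rintro ⟨p, q⟩ hw
      simp only [hWd, mem_filter, mem_product] at hw
      obtain ⟨⟨hp, hq⟩, hw⟩ := hw
      obtain ⟨e, he, k, hk, hke, hrel⟩ := exists_rel ha hp hq hw.1 (hoff p hp q hq hw.1)
      refine ⟨(ln e k, e), ?_, k, hk, hke, rfl, hrel⟩
      have hL : ln e k ∈ 𝓛 := (mem𝓛 _).2 ⟨e, he, k, hk, hke.symm, rfl⟩
      have heL : on e (ln e k) := (hon e he k hk hke.symm e he).2 (by simp [D])
      have hkL : on k (ln e k) := (hon e he k hk hke.symm k hk).2 (by simp [D])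
      have hmem : (ln e k, e) ∈ Mx ∪ Mn := by
        simp only [hMx, hMn, hInc, mem_union, mem_filter, mem_product]
        have hak : a k ≠ a e := fun h => hke (ha hk he h)
        rcases lt_or_gt_of_ne hak with h | h
        · left
          refine ⟨⟨⟨hL, he⟩, heL⟩, fun x hx hxL => ?_⟩
          by_cases hxe : x = e
          · rw [hxe]
          have := (hrel.2.2 x hx ((hon e he k hk hke.symm x hx).1 hxL) hxe).2
          nlinarith
        · right
          refine ⟨⟨⟨hL, he⟩, heL⟩, fun x hx hxL => ?_⟩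
          by_cases hxe : x = e
          · rw [hxe]
          have := (hrel.2.2 x hx ((hon e he k hk hke.symm x hx).1 hxL) hxe).2
          nlinarith
      rw [mem_sdiff]
      refine ⟨hmem, fun hH => ?_⟩
      rw [hHl, mem_filter] at hH
      have hH' := hH.2 k hk hkL hke
      rcases hrel.1 with ⟨rfl, h⟩ | ⟨rfl, h⟩
      · have := hH' q hq
        unfold D at this h
        linarith
      · have := hH' p hp
        unfold D at this h
        linarith
    · rintro ⟨L, e⟩ _ ⟨p1, q1⟩ h ⟨p2, q2⟩ h'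
      simp only [hWd, Set.mem_ofPred_eq, mem_filter, mem_product] at h h'
      obtain ⟨⟨⟨hp1, hq1⟩, w1⟩, k1, hk1, hk1e, hL1, r1⟩ := h
      obtain ⟨⟨⟨hp2, hq2⟩, w2⟩, k2, hk2, hk2e, hL2, r2⟩ := h'
      have he : e ∈ S := by rcases r1.1 with ⟨rfl, -⟩ | ⟨rfl, -⟩ <;> assumption
      have hk : D a b e k1 k2 = 0 := by
        rw [← hon e he k1 hk1 hk1e.symm k2 hk2, hL1, ← hL2]
        exact (hon e he k2 hk2 hk2e.symm k2 hk2).2 (by simp [D])
      obtain ⟨e1, e2⟩ := rel_unique ha hp1 hq1 hp2 hq2 hk1 hk2 hk1e hk2e w1 w2 r1 r2 hk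
      exact Prod.ext e1 e2
  have h3 : 3 ≤ Hl.card := by
    obtain ⟨T, hTS, hT3, hT⟩ := exists_three_hull ha hnc
    rw [← hT3]
    refine Finset.card_le_card_of_forall_subsingleton (fun e z => z.2 = e) ?_ ?_
    · intro e heT
      have he := hTS heT
      obtain ⟨u, v, huv⟩ := hT e heT
      have hne : ∃ x ∈ S, x ≠ e := by
        obtain ⟨x, hx, hxe⟩ := Finset.exists_mem_ne (by omega : 1 < T.card) e
        exact ⟨x, hTS hx, hxe⟩
      obtain ⟨k, hk, hke, hh⟩ := exists_hull ha he u v huv hne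
      refine ⟨(ln e k, e), ?_, rfl⟩
      have hL : ln e k ∈ 𝓛 := (mem𝓛 _).2 ⟨e, he, k, hk, hke.symm, rfl⟩
      have heL : on e (ln e k) := (hon e he k hk hke.symm e he).2 (by simp [D])
      rw [hHl, mem_filter]
      refine ⟨?_, fun x hx hxL hxe =>
        (hh x hx ((hon e he k hk hke.symm x hx).1 hxL) hxe).2⟩
      simp only [hMx, hMn, hInc, mem_union, mem_filter, mem_product]
      have hak : a k ≠ a e := fun h => hke (ha hk he h)
      rcases lt_or_gt_of_ne hak with h | h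
      · left
        refine ⟨⟨⟨hL, he⟩, heL⟩, fun x hx hxL => ?_⟩
        by_cases hxe : x = e
        · rw [hxe]
        have := (hh x hx ((hon e he k hk hke.symm x hx).1 hxL) hxe).1
        nlinarith
      · right
        refine ⟨⟨⟨hL, he⟩, heL⟩, fun x hx hxL => ?_⟩
        by_cases hxe : x = e
        · rw [hxe]
        have := (hh x hx ((hon e he k hk hke.symm x hx).1 hxL) hxe).1
        nlinarith
    · intro z _ e h e' h'
      simp only [Set.mem_ofPred_eq] at h h'
      exact h.2.symm.trans h'.2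
  have h4 := Finset.card_sdiff_add_card_eq_card (Finset.filter_subset
    (fun z : Λ × α => ∀ x ∈ S, on x z.1 → a x ≤ a z.2) Inc)
  have h5 := Finset.card_sdiff_add_card_eq_card (Finset.filter_subset
    (fun z : Λ × α => ∀ x ∈ S, on x z.1 → x ≠ z.2 → ∀ y ∈ S, 0 ≤ D a b z.2 x y) (Mx ∪ Mn))
  have h6 := Finset.card_union_le Mx Mn
  rw [← hMx] at h4
  rw [← hHl] at h5
  omega

end Coordinates

end Pool.Agent.Lib.MP_9f1016_co
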