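import Pool.Agent.Lib.MP_9f1016_co.Geo
import Pool.Agent.Lib.MP_9f1016_co.Melchior

/-!
# Real affine space as a point-line-plane geometry
-/

namespace Pool.Agent.Lib.MP_9f1016_co

open Finset Module

variable {V : Type*} [AddCommGroup V] [Module ℝ V]

theorem mem_line_iff {p q r : V} : r ∈ affineSpan ℝ ({p, q} : Set V) ↔ ∃ t : ℝ, r - p = t • (q - p) := by
  have h := vadd_left_mem_affineSpan_pair (k := ℝ) (p₁ := p) (p₂ := q) (v := r - p)
  simp only [vadd_eq_add, sub_add_cancel, vsub_eq_sub] at h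
  rw [h]
  exact ⟨fun ⟨t, ht⟩ => ⟨t, ht.symm⟩, fun ⟨t, ht⟩ => ⟨t, ht.symm⟩⟩

theorem not_collinear_iff {p q r : V} :
    ¬ Collinear ℝ ({p, q, r} : Set V) ↔ p ≠ q ∧ r ∉ affineSpan ℝ ({p, q} : Set V) := by
  constructor
  · intro h
    constructor
    · rintro rfl
      apply h
      simpa using collinear_pair ℝ p r
    · intro hr
      apply h
      have := collinear_insert_of_mem_affineSpan_pair hr
      convert this using 1
      ext x
      simp only [Set.mem_insert_iff, Set.mem_singleton_iff]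
      tauto
  · rintro ⟨h1, h2⟩ h
    exact h2 (h.mem_affineSpan_of_mem_of_ne (by simp) (by simp) (by simp) h1)

theorem range_three {V : Type*} (p q r : V) : Set.range ![p, q, r] = {p, q, r} := by
  ext x
  simp only [Set.mem_range, Set.mem_insert_iff, Set.mem_singleton_iff]
  constructor
  · rintro ⟨i, rfl⟩
    fin_cases i <;> simp
  · rintro (rfl | rfl | rfl)
    · exact ⟨0, rfl⟩
    · exact ⟨1, rfl⟩
    · exact ⟨2, rfl⟩

theorem finrank_three_le (p q r : V) :
    finrank ℝ (affineSpan ℝ ({p, q, r} : Set V)).direction ≤ 2 := by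
  rw [direction_affineSpan, ← range_three]
  exact finrank_vectorSpan_range_le ℝ _ (by simp)

theorem finrank_three {p q r : V} (h : ¬ Collinear ℝ ({p, q, r} : Set V)) :
    finrank ℝ (affineSpan ℝ ({p, q, r} : Set V)).direction = 2 := by
  rw [direction_affineSpan, ← range_three]
  exact (affineIndependent_iff_not_collinear_set.2 h).finrank_vectorSpan (by simp)

theorem span_three_eq {p q r : V} (h : ¬ Collinear ℝ ({p, q, r} : Set V))
    {P : AffineSubspace ℝ V} [FiniteDimensional ℝ P.direction] (hP : finrank ℝ P.direction ≤ 2)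
    (h1 : p ∈ P) (h2 : q ∈ P) (h3 : r ∈ P) : affineSpan ℝ ({p, q, r} : Set V) = P := by
  have hle : affineSpan ℝ ({p, q, r} : Set V) ≤ P := by
    rw [affineSpan_le]
    intro x hx
    simp only [Set.mem_insert_iff, Set.mem_singleton_iff] at hx
    rcases hx with rfl | rfl | rfl <;> assumption
  have hd := AffineSubspace.direction_le hle
  refine AffineSubspace.eq_of_direction_eq_of_nonempty_of_le ?_ ⟨p, mem_affineSpan ℝ (by simp)⟩ hle
  exact Submodule.eq_of_le_of_finrank_le hd (by rw [finrank_three h]; exact hP)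

open Classical in
theorem melchior_affine (S : Finset V)
    (hnc : ∃ p ∈ S, ∃ q ∈ S, ∃ r ∈ S, p ≠ q ∧ ¬ r ∈ affineSpan ℝ ({p, q} : Set V)) :
    ∑ L ∈ S.offDiag.image (fun z => affineSpan ℝ ({z.1, z.2} : Set V)),
      (S.filter fun x => x ∈ L).card + 3 ≤
      3 * (S.offDiag.image (fun z => affineSpan ℝ ({z.1, z.2} : Set V))).card := by
  obtain ⟨a, ha⟩ := Module.exists_dual_forall_apply_ne_zero (K := ℝ)
    (ι := {z : S × S // z.1 ≠ z.2}) (fun z => (z.1.2 : V) - z.1.1) (by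
      rintro ⟨⟨x, y⟩, h⟩
      exact sub_ne_zero.2 fun e => h (Subtype.ext e.symm))
  have ha' : ∀ p ∈ S, ∀ q ∈ S, p ≠ q → a q - a p ≠ 0 := by
    intro p hp q hq hpq
    have := ha ⟨(⟨p, hp⟩, ⟨q, hq⟩), fun e => hpq (congrArg Subtype.val e)⟩
    simpa using this
  obtain ⟨b, hb⟩ := Module.exists_dual_forall_apply_ne_zero (K := ℝ)
    (ι := {z : S × S × S // (z.1 : V) ≠ z.2.1 ∧ (z.2.2 : V) ∉ affineSpan ℝ ({(z.1 : V), (z.2.1 : V)} : Set V)})
    (fun z => (a z.1.2.1 - a z.1.1) • ((z.1.2.2 : V) - z.1.1) -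
      (a z.1.2.2 - a z.1.1) • ((z.1.2.1 : V) - z.1.1)) (by
      rintro ⟨⟨x, y, z⟩, h1, h2⟩ h
      apply h2
      have h3 := ha' x x.2 y y.2 h1
      simp only at h ⊢
      refine mem_line_iff.2 ⟨(a z - a x) / (a y - a x), ?_⟩
      rw [sub_eq_zero] at h
      rw [div_eq_inv_mul, mul_smul, ← h, smul_smul, inv_mul_cancel₀ h3, one_smul])
  have hD : ∀ p ∈ S, ∀ q ∈ S, p ≠ q → ∀ r ∈ S,
      (r ∈ affineSpan ℝ ({p, q} : Set V) ↔ D a b p q r = 0) := by
    intro p hp q hq hpq r hr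
    constructor
    · intro h
      obtain ⟨t, ht⟩ := mem_line_iff.1 h
      have e1 : a r - a p = t * (a q - a p) := by
        rw [← map_sub, ht, map_smul, map_sub, smul_eq_mul]
      have e2 : b r - b p = t * (b q - b p) := by
        rw [← map_sub, ht, map_smul, map_sub, smul_eq_mul]
      unfold D
      rw [e1, e2]
      ring
    · intro h
      by_contra hr'
      apply hb ⟨(⟨p, hp⟩, ⟨q, hq⟩, ⟨r, hr⟩), hpq, hr'⟩
      simpa [D] using h
  refine melchior_coord S a b (fun p q => affineSpan ℝ ({p, q} : Set V)) (fun x L => x ∈ L)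
    ?_ hD ?_ ?_
  · intro p hp q hq h
    by_contra hpq
    exact ha' p hp q hq hpq (sub_eq_zero.2 h.symm)
  · intro p _ q _ p' _ q' _ _ h h1 h2
    exact affineSpan_pair_eq_of_mem_of_mem_of_ne h1 h2 h
  · obtain ⟨p, hp, q, hq, r, hr, hpq, hn⟩ := hnc
    exact ⟨p, hp, q, hq, r, hr, fun h => hn ((hD p hp q hq hpq r hr).2 h)⟩

/-- real affine space as a geometry -/
noncomputable def affGeo (V : Type*) [AddCommGroup V] [Module ℝ V] :
    Geo V (AffineSubspace ℝ V) (AffineSubspace ℝ V) where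
  on x L := x ∈ L
  inP x P := x ∈ P
  ln p q := affineSpan ℝ {p, q}
  pl p q r := affineSpan ℝ {p, q, r}
  on_left p q := left_mem_affineSpan_pair ℝ p q
  on_right p q := right_mem_affineSpan_pair ℝ p q
  ln_eq _ h h1 h2 := affineSpan_pair_eq_of_mem_of_mem_of_ne h1 h2 h
  in_fst _ _ _ := mem_affineSpan ℝ (by simp)
  in_snd _ _ _ := mem_affineSpan ℝ (by simp)
  in_trd _ _ _ := mem_affineSpan ℝ (by simp)
  in_of_on h1 h2 h3 := affineSpan_pair_le_of_mem_of_mem h1 h2 h3
  pl_eq h1 h2 h3 h4 h5 :=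
    span_three_eq (not_collinear_iff.2 ⟨h1, h2⟩) (finrank_three_le _ _ _) h3 h4 h5
  melchior S h := by
    convert melchior_affine S h

theorem finrank_two {p q : V} (h : p ≠ q) :
    finrank ℝ (affineSpan ℝ ({p, q} : Set V)).direction = 1 := by
  rw [direction_affineSpan, vectorSpan_pair]
  exact finrank_span_singleton (vsub_ne_zero.2 h)

theorem coe_lines [FiniteDimensional ℝ V] (S : Finset V) :
    ((affGeo V).lines S : Set (AffineSubspace ℝ V)) =
      {L | finrank ℝ L.direction = 1 ∧ ∃ p ∈ S, ∃ q ∈ S, p ≠ q ∧ p ∈ L ∧ q ∈ L} := by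
  ext L
  rw [mem_coe, Geo.mem_lines]
  constructor
  · rintro ⟨p, hp, q, hq, hpq, rfl⟩
    exact ⟨finrank_two hpq, p, hp, q, hq, hpq, left_mem_affineSpan_pair ℝ p q,
      right_mem_affineSpan_pair ℝ p q⟩
  · rintro ⟨h, p, hp, q, hq, hpq, h1, h2⟩
    refine ⟨p, hp, q, hq, hpq, ?_⟩
    have hle := affineSpan_pair_le_of_mem_of_mem h1 h2
    refine AffineSubspace.eq_of_direction_eq_of_nonempty_of_le ?_
      ⟨p, left_mem_affineSpan_pair ℝ p q⟩ hle
    exact Submodule.eq_of_le_of_finrank_le (AffineSubspace.direction_le hle)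
      (h.trans (finrank_two hpq).symm).le

theorem coe_planes [FiniteDimensional ℝ V] (S : Finset V) :
    ((affGeo V).planes S : Set (AffineSubspace ℝ V)) =
      {P | finrank ℝ P.direction = 2 ∧ ∃ p ∈ S, ∃ q ∈ S, ∃ r ∈ S,
        ¬ Collinear ℝ ({p, q, r} : Set V) ∧ p ∈ P ∧ q ∈ P ∧ r ∈ P} := by
  ext P
  rw [mem_coe, Geo.mem_planes]
  constructor
  · rintro ⟨p, hp, q, hq, r, hr, hpq, hn, rfl⟩
    have h := not_collinear_iff.2 ⟨hpq, hn⟩
    exact ⟨finrank_three h, p, hp, q, hq, r, hr, h, mem_affineSpan ℝ (by simp),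
      mem_affineSpan ℝ (by simp), mem_affineSpan ℝ (by simp)⟩
  · rintro ⟨h, p, hp, q, hq, r, hr, hn, h1, h2, h3⟩
    obtain ⟨hpq, hn'⟩ := not_collinear_iff.1 hn
    exact ⟨p, hp, q, hq, r, hr, hpq, hn', span_three_eq hn h.le h1 h2 h3⟩

end Pool.Agent.Lib.MP_9f1016_co
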