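import Mathlib

/-!
# The arithmetic behind the planar inequality
-/

namespace Pool.Agent.Lib.MP_9f1016_co

/-- the least admissible number of lines -/
def lowL (j K : ℕ) : ℕ :=
  max ((K * (j - K) + K + 3) / 2)
    (max (K * (j - K) + 1 - (j - K) * (j - K - 1) / 2) ((j * (j - 1) + 4 * K + 5) / (K + 3)))

/-- a quadratic is nonnegative and increasing from `l` on -/
def quadOK (al be ga l : ℚ) : Bool :=
  decide (0 ≤ al) && decide (be ≤ 2 * al * l) && decide (be * l + ga ≤ al * l * l)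

/-- the finite check -/
def chk (j K : ℕ) : Bool :=
  let J : ℚ := j
  let k : ℚ := K
  let b : ℚ := J - k
  let p : ℚ := 1 + 2 / (k * (k + 1))
  let q : ℚ := J * (J - 1) / (k * (k + 1))
  let l : ℚ := lowL j K
  let ns : ℚ := b * (b - 1) * (2 * J + 3) ^ 2 / 64
  let lA : ℚ := (k - 2) * k * k * b / 4 + ns
  let lB : ℚ := 2 * (k - 2) * k * b * (b - 1) / 3 + ns
  let Phi : ℚ := (2 * b + (k - 1) * (J - 1)) ^ 2 / (4 * b * (k - 1))
  quadOK 4 (2 * Phi + 2 * p * (J - 2)) ((J - 2) * (6 - 2 * q)) l ||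
  quadOK (4 - 2 * p * p) (-4 * p * q + 2 + 2 * p * (J - 2)) (2 * q * q + lB + (J - 2) * (6 - 2 * q)) l ||
  quadOK 4 (4 * (J - 1) + 2 * p * (J - 2)) (lA + (J - 2) * (6 - 2 * q)) l ||
  quadOK (4 - 2 * p * p) (-4 * p * q + 2 + 2 * p * (J - 2)) (2 * q * q + lA + (J - 2) * (6 - 2 * q)) l

theorem chk_all : ∀ j < 81, ∀ K < j, 2 ≤ K → chk j K = true := by
  decide +kernel

theorem quad_of_ok {al be ga l : ℚ} (h : quadOK al be ga l = true) {x : ℝ} (hx : (l : ℝ) ≤ x) :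
    (be : ℝ) * x + ga ≤ al * x * x := by
  simp only [quadOK, Bool.and_eq_true, decide_eq_true_eq] at h
  obtain ⟨⟨h1, h2⟩, h3⟩ := h
  have h1' : (0 : ℝ) ≤ al := by exact_mod_cast h1
  have h2' : (be : ℝ) ≤ 2 * al * l := by exact_mod_cast h2
  have h3' : (be : ℝ) * l + ga ≤ al * l * l := by exact_mod_cast h3
  have e1 : 0 ≤ (al : ℝ) * (x - l) ^ 2 := by positivity
  have e2 : 0 ≤ (2 * al * l - be : ℝ) * (x - l) := mul_nonneg (by linarith) (by linarith)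
  nlinarith

theorem lowL_le {j K l : ℕ}
    (F1 : K * (j - K) + K + 2 ≤ 2 * l) (F2 : 2 * (K * (j - K)) + 2 ≤ 2 * l + (j - K) * (j - K - 1))
    (F4 : j * (j - 1) + 3 * (K + 1) ≤ (K + 3) * l) : lowL j K ≤ l := by
  unfold lowL
  refine max_le (by omega) (max_le (by omega) ?_)
  rw [← Nat.lt_succ_iff, Nat.div_lt_iff_lt_mul (by omega)]
  have : (l + 1) * (K + 3) = (K + 3) * l + K + 3 := by ring
  rw [Nat.succ_eq_add_one, this]
  omega

theorem quad_mono {be ga l0 l : ℝ} (h0 : 0 < l0) (h1 : l0 ≤ l) (h2 : 0 ≤ ga)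
    (h3 : be * l0 + ga ≤ 4 * l0 ^ 2) : be * l + ga ≤ 4 * l ^ 2 := by
  have e1 : be ≤ 4 * l0 := by
    by_contra h
    nlinarith
  have e2 : 0 ≤ (l - l0) * (4 * l + 4 * l0 - be) := mul_nonneg (by linarith) (by linarith)
  nlinarith

theorem phi_two {K b r : ℝ} (hK : 1 < K) (hb : 0 < b) :
    2 * r + (K - 1) / b * (r * (K + b - 1 - r)) ≤
      (2 * b + (K - 1) * (K + b - 1)) ^ 2 / (4 * b * (K - 1)) := by
  have h1 : 0 < K - 1 := by linarith
  rw [le_div_iff₀ (by positivity)]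
  have : (2 * r + (K - 1) / b * (r * (K + b - 1 - r))) * (4 * b * (K - 1)) =
      4 * ((K - 1) * r) * (2 * b + (K - 1) * (K + b - 1) - (K - 1) * r) := by
    field_simp
    ring
  rw [this]
  nlinarith [sq_nonneg (2 * b + (K - 1) * (K + b - 1) - 2 * ((K - 1) * r))]

theorem arith_small (K b l : ℕ) (W s Λ : ℝ) (hK : 2 ≤ K) (hb : 1 ≤ b) (hj : K + b < 81)
    (F1 : (K : ℝ) * b + K + 2 ≤ 2 * l) (F2 : 2 * (K : ℝ) * b + 2 ≤ 2 * l + b * (b - 1))
    (F4 : ((K : ℝ) + b) * (K + b - 1) + 3 * (K + 1) ≤ (K + 3) * l)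
    (hW0 : 0 ≤ W) (C1 : (K : ℝ) * (K + 1) * W + (K + b) * (K + b - 1) ≤ (K * (K + 1) + 2) * l)
    (sA : s ≤ W ^ 2 + l) (sB : s ≤ 2 * l * (K + b - 1))
    (LA : Λ ≤ (K - 2) * K * K * b / 4 + b * (b - 1) * (2 * (K + b) + 3) ^ 2 / 64)
    (LB : Λ ≤ 2 * (K - 2) * K * b * (b - 1) / 3 + b * (b - 1) * (2 * (K + b) + 3) ^ 2 / 64)
    (R2 : 2 * s + Λ ≤ 2 * l * ((2 * b + (K - 1) * (K + b - 1)) ^ 2 / (4 * b * (K - 1)))) :
    2 * s + Λ + (K + b - 2) * (2 * W + 6) ≤ 4 * (l : ℝ) ^ 2 := by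
  have h := chk_all (K + b) hj K (by omega) hK
  have hl : lowL (K + b) K ≤ l := by
    obtain ⟨c, rfl⟩ : ∃ c, b = c + 1 := ⟨b - 1, by omega⟩
    have e1 : K + (c + 1) - K = c + 1 := by omega
    have e2 : K + (c + 1) - 1 = K + c := by omega
    apply lowL_le
    · rw [e1]
      exact_mod_cast F1
    · rw [e1, Nat.add_sub_cancel]
      have : 2 * ((K : ℝ) * (c + 1)) + 2 ≤ 2 * l + (c + 1) * c := by
        push_cast at F2
        linarith
      exact_mod_cast this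
    · rw [e2]
      have : ((K : ℝ) + (c + 1)) * (K + c) + 3 * (K + 1) ≤ (K + 3) * l := by
        push_cast at F4
        linarith
      exact_mod_cast this
  have hl' : (((lowL (K + b) K : ℕ) : ℚ) : ℝ) ≤ l := by exact_mod_cast hl
  have hK' : (2 : ℝ) ≤ K := by exact_mod_cast hK
  have hb' : (1 : ℝ) ≤ b := by exact_mod_cast hb
  have hWp : W ≤ (1 + 2 / ((K : ℝ) * (K + 1))) * l - (K + b) * (K + b - 1) / (K * (K + 1)) := by
    have hD : (0 : ℝ) < K * (K + 1) := by positivity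
    have : (1 + 2 / ((K : ℝ) * (K + 1))) * l - (K + b) * (K + b - 1) / (K * (K + 1)) =
        ((K * (K + 1) + 2) * l - (K + b) * (K + b - 1)) / (K * (K + 1)) := by
      field_simp
    rw [this, le_div_iff₀ hD]
    linarith
  have hW2 := pow_le_pow_left₀ hW0 hWp 2
  have hW3 := mul_le_mul_of_nonneg_left hWp (by linarith : (0 : ℝ) ≤ K + b - 2)
  simp only [chk, Bool.or_eq_true] at h
  rcases h with ((h | h) | h) | h <;> have h1 := quad_of_ok h hl' <;> push_cast at h1 <;>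
    simp only [add_sub_cancel_left] at h1 <;>
    generalize (1 + 2 / ((K : ℝ) * (K + 1))) = p at * <;>
    generalize ((K : ℝ) + b) * (K + b - 1) / (K * (K + 1)) = q at * <;>
    linarith

theorem arith_pencil (K l : ℕ) (W s Λ : ℝ) (hK : 79 < K) (F2 : (K : ℝ) + 1 ≤ l)
    (hW0 : 0 ≤ W) (hW : W ≤ l) (C1 : (K : ℝ) * (K + 1) * W + (K + 1) * K ≤ (K * (K + 1) + 2) * l)
    (sA : s ≤ W ^ 2 + l) (LB : Λ ≤ 0) :
    2 * s + Λ + (K - 1) * (2 * W + 6) ≤ 4 * (l : ℝ) ^ 2 := by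
  have hK' : (79 : ℝ) < K := by exact_mod_cast hK
  by_cases h : (K : ℝ) + 3 ≤ l
  · have hW2 := pow_le_pow_left₀ hW0 hW 2
    have hW3 := mul_le_mul_of_nonneg_left hW (by linarith : (0 : ℝ) ≤ K - 1)
    nlinarith
  · have h1 : W ≤ l - 9 / 10 := by
      by_contra h2
      have : (K : ℝ) * (K + 1) * (l - 9 / 10) ≤ K * (K + 1) * W :=
        mul_le_mul_of_nonneg_left (by linarith) (by positivity)
      nlinarith
    have hW2 := pow_le_pow_left₀ hW0 h1 2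
    have hW3 := mul_le_mul_of_nonneg_left h1 (by linarith : (0 : ℝ) ≤ K - 1)
    nlinarith

theorem arith_four (K b : ℝ) (hb : 2 ≤ b) (h : 3 * b ≤ 2 * K) (hj : 80 ≤ K + b) :
    (4 * (K + b - 1) + 2 * (K + b - 2)) * (K * b + 1 - b * (b - 1) / 2) +
      (2 * (K - 2) * K * b * (b - 1) / 3 + b * (b - 1) * (2 * (K + b) + 3) ^ 2 / 64 +
        6 * (K + b - 2)) ≤ 4 * (K * b + 1 - b * (b - 1) / 2) ^ 2 := by
  obtain ⟨u, rfl⟩ : ∃ u, b = 2 + u := ⟨b - 2, by ring⟩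
  obtain ⟨v, rfl⟩ : ∃ v, K = 3 * (2 + u) / 2 + v := ⟨K - 3 * (2 + u) / 2, by ring⟩
  have hu : 0 ≤ u := by linarith
  have hv : 0 ≤ v := by linarith
  rw [← sub_nonneg]
  by_cases h5 : 5 ≤ u
  · obtain ⟨w, rfl⟩ : ∃ w, u = 5 + w := ⟨u - 5, by ring⟩
    have hw : 0 ≤ w := by linarith
    ring_nf
    positivity
  · obtain ⟨w, rfl⟩ : ∃ w, v = 5 + w := ⟨v - 5, by ring⟩
    have hw : 0 ≤ w := by linarith
    ring_nf
    positivity

theorem arith_three (K b : ℝ) (h1 : 2 * b ≤ 3 * K) (h2 : 2 * K ≤ 3 * b) (hj : 80 ≤ K + b) :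
    (4 * (K + b - 1) + 2 * (K + b - 2)) * ((K * b + K + 2) / 2) +
      ((K - 2) * K * K * b / 4 + b * (b - 1) * (2 * (K + b) + 3) ^ 2 / 64 +
        6 * (K + b - 2)) ≤ 4 * ((K * b + K + 2) / 2) ^ 2 := by
  obtain ⟨u, v, hu, hv, rfl, rfl⟩ : ∃ u v, 0 ≤ u ∧ 0 ≤ v ∧ K = (3 * u + 2 * v) / 5 ∧
      b = (2 * u + 3 * v) / 5 :=
    ⟨3 * K - 2 * b, 3 * b - 2 * K, by linarith, by linarith, by ring, by ring⟩
  rw [← sub_nonneg]
  by_cases h5 : 20 ≤ u
  · obtain ⟨w, rfl⟩ : ∃ w, u = 20 + w := ⟨u - 20, by ring⟩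
    have hw : 0 ≤ w := by linarith
    ring_nf
    positivity
  · obtain ⟨w, rfl⟩ : ∃ w, v = 20 + w := ⟨v - 20, by ring⟩
    have hw : 0 ≤ w := by linarith
    ring_nf
    positivity

theorem arith_five (K b l : ℝ) (hK : 2 ≤ K) (h : 3 * K ≤ 2 * b) (hj : 81 ≤ K + b)
    (F1 : K * b + K + 2 ≤ 2 * l) (F4 : (K + b) * (K + b - 1) + 3 * (K + 1) ≤ (K + 3) * l)
    (hc : K ≤ 14 ∨ 15 ≤ K) :
    2 * l * (2 * (K + b - 1) + 5 / 12 * ((K - 1) * (K + b - 1))) + (K + b - 2) * (2 * l) +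
      6 * (K + b - 2) ≤ 4 * l ^ 2 := by
  have h2 : K + b ≤ l ∧ 3 * (K + b) - 1 + 5 / 12 * ((K - 1) * (K + b - 1)) ≤ 2 * l := by
    rcases hc with c3 | c3
    · have e0 : 0 ≤ l := by nlinarith
      have e1 : (K + 3) * l ≤ 17 * l := mul_le_mul_of_nonneg_right (by linarith) e0
      have e2 : (K - 1) * (K + b - 1) ≤ 13 * (K + b - 1) :=
        mul_le_mul_of_nonneg_right (by linarith) (by linarith)
      have e3 : 80 * (K + b) ≤ (K + b - 1) * (K + b) :=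
        mul_le_mul_of_nonneg_right (by linarith) (by linarith)
      constructor <;> linarith
    · have e1 : 15 * b ≤ K * b := mul_le_mul_of_nonneg_right c3 (by linarith)
      have e2 : K * (3 * K) ≤ K * (2 * b) := mul_le_mul_of_nonneg_left h (by linarith)
      have e3 : 15 * K ≤ K * K := mul_le_mul_of_nonneg_right c3 (by linarith)
      constructor <;> linarith
  have h4 := mul_le_mul_of_nonneg_left h2.2 (by linarith : (0 : ℝ) ≤ 2 * l)
  linarith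

theorem plane_arith (K b l : ℕ) (W s Λ : ℝ) (hK : 2 ≤ K) (hb : 1 ≤ b)
    (F1 : (K : ℝ) * b + K + 2 ≤ 2 * l) (F2 : 2 * (K : ℝ) * b + 2 ≤ 2 * l + b * (b - 1))
    (F4 : ((K : ℝ) + b) * (K + b - 1) + 3 * (K + 1) ≤ (K + 3) * l)
    (hW0 : 0 ≤ W) (hW : W ≤ l)
    (C1 : (K : ℝ) * (K + 1) * W + (K + b) * (K + b - 1) ≤ (K * (K + 1) + 2) * l)
    (sA : s ≤ W ^ 2 + l) (sB : s ≤ 2 * l * (K + b - 1))
    (LA : Λ ≤ (K - 2) * K * K * b / 4 + b * (b - 1) * (2 * (K + b) + 3) ^ 2 / 64)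
    (LB : Λ ≤ 2 * (K - 2) * K * b * (b - 1) / 3 + b * (b - 1) * (2 * (K + b) + 3) ^ 2 / 64)
    (R2 : ∀ Φ : ℝ, (∀ r : ℝ, 0 ≤ r → r ≤ K + b - 1 →
      2 * r + ((K : ℝ) - 1) / b * (r * (K + b - 1 - r)) ≤ Φ) → 2 * s + Λ ≤ 2 * l * Φ) :
    2 * s + Λ + (K + b - 2) * (2 * W + 6) ≤ 4 * (l : ℝ) ^ 2 := by
  have hK' : (2 : ℝ) ≤ K := by exact_mod_cast hK
  have hb' : (1 : ℝ) ≤ b := by exact_mod_cast hb
  by_cases hj : K + b < 81
  · exact arith_small K b l W s Λ hK hb hj F1 F2 F4 hW0 C1 sA sB LA LB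
      (R2 _ fun r _ _ => phi_two (by linarith) (by linarith))
  have hj' : (81 : ℝ) ≤ K + b := by exact_mod_cast not_lt.1 hj
  rcases Nat.eq_or_lt_of_le hb with rfl | hb2
  · simp only [Nat.cast_one, sub_self, mul_zero, zero_mul, zero_div, add_zero, mul_one,
      add_sub_cancel_right] at *
    have := arith_pencil K l W s Λ (by omega) (by linarith) hW0 hW C1 sA LB
    linarith
  have hb2' : (2 : ℝ) ≤ b := by exact_mod_cast hb2
  have hW3 := mul_le_mul_of_nonneg_left hW (by linarith : (0 : ℝ) ≤ K + b - 2)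
  have p1 : (0 : ℝ) ≤ K - 2 := by linarith
  have p2 : (0 : ℝ) ≤ b - 1 := by linarith
  have p3 : (0 : ℝ) ≤ K + b - 2 := by linarith
  by_cases c1 : 3 * (b : ℝ) ≤ 2 * K
  · have := quad_mono (by nlinarith) (by linarith : (K : ℝ) * b + 1 - b * (b - 1) / 2 ≤ l)
      (by positivity) (arith_four K b hb2' c1 (by linarith))
    linarith
  by_cases c2 : 2 * (b : ℝ) ≤ 3 * K
  · have := quad_mono (by positivity) (by linarith : ((K : ℝ) * b + K + 2) / 2 ≤ l)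
      (by positivity) (arith_three K b c2 (by linarith) (by linarith))
    linarith
  have h1 := R2 (2 * (K + b - 1) + 5 / 12 * ((K - 1) * (K + b - 1))) (by
    intro r h0 h1
    have e1 : r * (K + b - 1 - r) ≤ 5 / 12 * (K + b - 1) * b := by
      nlinarith [sq_nonneg (K + b - 1 - 2 * r)]
    have e2 : ((K : ℝ) - 1) / b * (r * (K + b - 1 - r)) ≤
        ((K : ℝ) - 1) / b * (5 / 12 * (K + b - 1) * b) :=
      mul_le_mul_of_nonneg_left e1 (div_nonneg (by linarith) (by linarith))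
    have e3 : ((K : ℝ) - 1) / b * (5 / 12 * (K + b - 1) * b) =
        5 / 12 * ((K - 1) * (K + b - 1)) := by
      field_simp
    linarith)
  have h5 := arith_five K b l hK' (by linarith) hj' F1 F4 (by
    rcases Nat.lt_or_ge K 15 with h | h
    · exact Or.inl (by exact_mod_cast (by omega : K ≤ 14))
    · exact Or.inr (by exact_mod_cast h))
  linarith

end Pool.Agent.Lib.MP_9f1016_co
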