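import Mathlib

/-!
# Abstract point-line-plane geometries satisfying Melchior's inequality
-/

namespace Pool.Agent.Lib.MP_9f1016_co

open Finset

open Classical in
/-- Points, lines and planes, with the incidence axioms of affine space and Melchior's
inequality for every finite set of points. -/
structure Geo (α Λ Ψ : Type*) where
  on : α → Λ → Prop
  inP : α → Ψ → Prop
  ln : α → α → Λ
  pl : α → α → α → Ψ
  on_left : ∀ p q, on p (ln p q)
  on_right : ∀ p q, on q (ln p q)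
  ln_eq : ∀ {p q p' q'}, p ≠ q → p' ≠ q' → on p' (ln p q) → on q' (ln p q) → ln p' q' = ln p q
  in_fst : ∀ p q r, inP p (pl p q r)
  in_snd : ∀ p q r, inP q (pl p q r)
  in_trd : ∀ p q r, inP r (pl p q r)
  in_of_on : ∀ {P x y z}, inP x P → inP y P → on z (ln x y) → inP z P
  pl_eq : ∀ {p q r p' q' r'}, p' ≠ q' → ¬ on r' (ln p' q') →
    inP p' (pl p q r) → inP q' (pl p q r) → inP r' (pl p q r) → pl p' q' r' = pl p q r
  melchior : ∀ S : Finset α, (∃ p ∈ S, ∃ q ∈ S, ∃ r ∈ S, p ≠ q ∧ ¬ on r (ln p q)) →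
    ∑ L ∈ S.offDiag.image (fun z => ln z.1 z.2), (S.filter fun x => on x L).card + 3 ≤
      3 * (S.offDiag.image (fun z => ln z.1 z.2)).card

namespace Geo

variable {α Λ Ψ : Type*} (G : Geo α Λ Ψ)

open Classical

/-- lines determined by `S` -/
noncomputable def lines (S : Finset α) : Finset Λ := S.offDiag.image (fun z => G.ln z.1 z.2)

/-- points of `X` on the line `L` -/
noncomputable def pts (X : Finset α) (L : Λ) : Finset α := X.filter fun x => G.on x L

/-- planes determined by `S` -/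
noncomputable def planes (S : Finset α) : Finset Ψ :=
  ((S ×ˢ S ×ˢ S).filter fun t => t.1 ≠ t.2.1 ∧ ¬ G.on t.2.2 (G.ln t.1 t.2.1)).image
    fun t => G.pl t.1 t.2.1 t.2.2

/-- points joined to `x` by an ordinary line -/
noncomputable def nb (S : Finset α) (x : α) : Finset α :=
  S.filter fun y => y ≠ x ∧ ∀ z ∈ S, G.on z (G.ln x y) → z = x ∨ z = y

/-- lines through `x` -/
noncomputable def thru (S : Finset α) (x : α) : Finset Λ := (G.lines S).filter fun L => G.on x L

/-- lines all of whose points lie in `N` -/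
noncomputable def inside (S N : Finset α) : Finset Λ :=
  (G.lines S).filter fun L => G.pts S L ⊆ N

variable {G}

theorem mem_lines {S : Finset α} {L : Λ} :
    L ∈ G.lines S ↔ ∃ p ∈ S, ∃ q ∈ S, p ≠ q ∧ G.ln p q = L := by
  simp only [lines, mem_image, mem_offDiag, Prod.exists]
  constructor
  · rintro ⟨p, q, ⟨h1, h2, h3⟩, h4⟩
    exact ⟨p, h1, q, h2, h3, h4⟩
  · rintro ⟨p, h1, q, h2, h3, h4⟩
    exact ⟨p, q, ⟨h1, h2, h3⟩, h4⟩

theorem ln_mem {S : Finset α} {p q : α} (hp : p ∈ S) (hq : q ∈ S) (h : p ≠ q) :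
    G.ln p q ∈ G.lines S := mem_lines.2 ⟨p, hp, q, hq, h, rfl⟩

@[simp] theorem mem_pts {X : Finset α} {L : Λ} {x : α} : x ∈ G.pts X L ↔ x ∈ X ∧ G.on x L := by
  simp [pts]

theorem mem_planes {S : Finset α} {P : Ψ} :
    P ∈ G.planes S ↔ ∃ p ∈ S, ∃ q ∈ S, ∃ r ∈ S, p ≠ q ∧ ¬ G.on r (G.ln p q) ∧ G.pl p q r = P := by
  simp only [planes, mem_image, mem_filter, mem_product, Prod.exists]
  constructor
  · rintro ⟨p, q, r, ⟨⟨h1, h2, h3⟩, h4, h5⟩, h6⟩
    exact ⟨p, h1, q, h2, r, h3, h4, h5, h6⟩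
  · rintro ⟨p, h1, q, h2, r, h3, h4, h5, h6⟩
    exact ⟨p, q, r, ⟨⟨h1, h2, h3⟩, h4, h5⟩, h6⟩

theorem mem_nb {S : Finset α} {x y : α} :
    y ∈ G.nb S x ↔ y ∈ S ∧ y ≠ x ∧ ∀ z ∈ S, G.on z (G.ln x y) → z = x ∨ z = y := by
  simp [nb]

theorem eq_ln {S : Finset α} {L : Λ} (hL : L ∈ G.lines S) {x y : α} (hxy : x ≠ y)
    (hx : G.on x L) (hy : G.on y L) : G.ln x y = L := by
  obtain ⟨p, -, q, -, hpq, rfl⟩ := mem_lines.1 hL
  exact G.ln_eq hpq hxy hx hy

theorem ln_comm {p q : α} (h : p ≠ q) : G.ln p q = G.ln q p :=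
  G.ln_eq h.symm h (G.on_right _ _) (G.on_left _ _)

theorem eq_pl {S : Finset α} {P : Ψ} (hP : P ∈ G.planes S) {x y z : α} (hxy : x ≠ y)
    (hz : ¬ G.on z (G.ln x y)) (h1 : G.inP x P) (h2 : G.inP y P) (h3 : G.inP z P) :
    G.pl x y z = P := by
  obtain ⟨p, -, q, -, r, -, -, -, rfl⟩ := mem_planes.1 hP
  exact G.pl_eq hxy hz h1 h2 h3

theorem two_le_pts {S : Finset α} {L : Λ} (hL : L ∈ G.lines S) : 2 ≤ (G.pts S L).card := by
  obtain ⟨p, hp, q, hq, hpq, rfl⟩ := mem_lines.1 hL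
  have : ({p, q} : Finset α) ⊆ G.pts S (G.ln p q) := by
    intro x hx
    simp only [mem_insert, mem_singleton] at hx
    rcases hx with rfl | rfl
    · simp [hp, G.on_left]
    · simp [hq, G.on_right]
  simpa [card_pair hpq] using card_le_card this

theorem nb_symm {S : Finset α} {x y : α} (hx : x ∈ S) (h : y ∈ G.nb S x) : x ∈ G.nb S y := by
  rw [mem_nb] at h ⊢
  refine ⟨hx, h.2.1.symm, fun z hz hon => ?_⟩
  rw [← ln_comm h.2.1.symm] at hon
  exact (h.2.2 z hz hon).symm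

theorem nb_subset (S : Finset α) (x : α) : G.nb S x ⊆ S.erase x := by
  intro y hy
  rw [mem_nb] at hy
  exact mem_erase.2 ⟨hy.2.1, hy.1⟩

theorem melchior' {S : Finset α} (h : ∃ p ∈ S, ∃ q ∈ S, ∃ r ∈ S, p ≠ q ∧ ¬ G.on r (G.ln p q)) :
    ∑ L ∈ G.lines S, (G.pts S L).card + 3 ≤ 3 * (G.lines S).card := G.melchior S h

/-- every pair of distinct points lies on exactly one line -/
theorem sum_pairs {S X Y : Finset α} (hX : X ⊆ S) (hY : Y ⊆ S) :
    ∑ L ∈ G.lines S, ((G.pts X L ×ˢ G.pts Y L).filter fun z => z.1 ≠ z.2).card =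
      ((X ×ˢ Y).filter fun z => z.1 ≠ z.2).card := by
  rw [card_eq_sum_card_fiberwise (f := fun z => G.ln z.1 z.2) (t := G.lines S)]
  · refine sum_congr rfl fun L hL => ?_
    congr 1
    ext ⟨x, y⟩
    simp only [mem_filter, mem_product, mem_pts]
    constructor
    · rintro ⟨⟨⟨h1, h2⟩, h3, h4⟩, h5⟩
      exact ⟨⟨⟨h1, h3⟩, h5⟩, eq_ln hL h5 h2 h4⟩
    · rintro ⟨⟨⟨h1, h3⟩, h5⟩, rfl⟩
      exact ⟨⟨⟨h1, G.on_left _ _⟩, h3, G.on_right _ _⟩, h5⟩
  · rintro ⟨x, y⟩ hz
    simp only [coe_filter, mem_product, Set.mem_ofPred_eq] at hz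
    exact ln_mem (hX hz.1.1) (hY hz.1.2) hz.2

theorem card_ne_self (X : Finset α) :
    (((X ×ˢ X).filter fun z => z.1 ≠ z.2).card : ℝ) = X.card * (X.card - 1) := by
  have h : ((X ×ˢ X).filter fun z => z.1 ≠ z.2) = X.offDiag := by
    ext ⟨x, y⟩
    simp [and_assoc]
  rw [h, offDiag_card]
  have : X.card ≤ X.card * X.card := Nat.le_mul_self _
  push_cast [this]
  ring

theorem card_ne_disj {X Y : Finset α} (h : Disjoint X Y) :
    ((X ×ˢ Y).filter fun z => z.1 ≠ z.2).card = X.card * Y.card := by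
  rw [filter_true_of_mem, card_product]
  rintro ⟨x, y⟩ hz he
  simp only [mem_product] at hz he
  exact disjoint_left.1 h hz.1 (he ▸ hz.2)

theorem sum_sq {S X : Finset α} (hX : X ⊆ S) :
    ∑ L ∈ G.lines S, ((G.pts X L).card : ℝ) * ((G.pts X L).card - 1) = X.card * (X.card - 1) := by
  rw [← card_ne_self X, ← sum_pairs (G := G) hX hX]
  push_cast
  exact sum_congr rfl fun L _ => (card_ne_self _).symm

theorem sum_mul {S X Y : Finset α} (hX : X ⊆ S) (hY : Y ⊆ S) (h : Disjoint X Y) :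
    ∑ L ∈ G.lines S, ((G.pts X L).card : ℝ) * (G.pts Y L).card = X.card * Y.card := by
  have h1 := sum_pairs (G := G) hX hY
  rw [card_ne_disj h] at h1
  have h2 : ∀ L ∈ G.lines S, ((G.pts X L ×ˢ G.pts Y L).filter fun z => z.1 ≠ z.2).card =
      (G.pts X L).card * (G.pts Y L).card := fun L _ =>
    card_ne_disj (h.mono (filter_subset _ _) (filter_subset _ _))
  rw [sum_congr rfl h2] at h1
  exact_mod_cast h1

theorem sum_thru (S : Finset α) :
    ∑ x ∈ S, (G.thru S x).card = ∑ L ∈ G.lines S, (G.pts S L).card := by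
  simp only [thru, pts, card_filter]
  exact sum_comm

/-- the ordinary lines through `x` -/
theorem ln_injOn_nb (S : Finset α) (x : α) : Set.InjOn (G.ln x) (G.nb S x) := by
  intro y hy y' hy' h
  rw [mem_coe, mem_nb] at hy hy'
  rcases hy.2.2 y' hy'.1 (h ▸ G.on_right x y') with h1 | h1
  · exact absurd h1 hy'.2.1
  · exact h1.symm

theorem lines_mono {S T : Finset α} (h : S ⊆ T) : G.lines S ⊆ G.lines T := by
  intro L hL
  obtain ⟨p, hp, q, hq, hpq, rfl⟩ := mem_lines.1 hL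
  exact ln_mem (h hp) (h hq) hpq

theorem card_lines_erase {S : Finset α} {x : α} (hx : x ∈ S) :
    (G.lines (S.erase x)).card + (G.nb S x).card ≤ (G.lines S).card := by
  rw [← card_image_of_injOn (ln_injOn_nb S x), ← card_union_of_disjoint]
  · refine card_le_card (union_subset (lines_mono (erase_subset _ _)) ?_)
    intro L hL
    obtain ⟨y, hy, rfl⟩ := mem_image.1 hL
    rw [mem_nb] at hy
    exact ln_mem hx hy.1 hy.2.1.symm
  · rw [disjoint_left]
    intro L hL hL'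
    obtain ⟨y, hy, rfl⟩ := mem_image.1 hL'
    rw [mem_nb] at hy
    obtain ⟨p, hp, q, hq, hpq, h⟩ := mem_lines.1 hL
    rw [mem_erase] at hp hq
    have h1 := (hy.2.2 p hp.2 (h ▸ G.on_left p q)).resolve_left hp.1
    have h2 := (hy.2.2 q hq.2 (h ▸ G.on_right p q)).resolve_left hq.1
    exact hpq (h1.trans h2.symm)

theorem card_inside_add {S : Finset α} {x : α} (hx : x ∈ S) :
    (G.inside S (G.nb S x)).card + (G.nb S x).card ≤ (G.lines S).card := by
  rw [← card_image_of_injOn (ln_injOn_nb S x), ← card_union_of_disjoint]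
  · refine card_le_card (union_subset (filter_subset _ _) ?_)
    intro L hL
    obtain ⟨y, hy, rfl⟩ := mem_image.1 hL
    rw [mem_nb] at hy
    exact ln_mem hx hy.1 hy.2.1.symm
  · rw [disjoint_left]
    intro L hL hL'
    obtain ⟨y, hy, rfl⟩ := mem_image.1 hL'
    rw [inside, mem_filter] at hL
    have := hL.2 (mem_pts.2 ⟨hx, G.on_left x y⟩)
    exact (mem_nb.1 this).2.1 rfl

theorem not_on_swap {p q r : α} (hpq : p ≠ q) (h : ¬ G.on r (G.ln p q)) :
    p ≠ r ∧ ¬ G.on q (G.ln p r) := by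
  have hpr : p ≠ r := fun e => h (e ▸ G.on_left p q)
  refine ⟨hpr, fun hq => h ?_⟩
  rw [G.ln_eq hpr hpq (G.on_left _ _) hq]
  exact G.on_right _ _

/-- a plane contains, for each of its points `x`, two further points on a line missing `x` -/
theorem exists_opp {S : Finset α} {P : Ψ} (hP : P ∈ G.planes S) (x : α) :
    ∃ y ∈ S, ∃ z ∈ S, G.inP y P ∧ G.inP z P ∧ y ≠ z ∧ ¬ G.on x (G.ln y z) := by
  obtain ⟨p, hp, q, hq, r, hr, hpq, hn, rfl⟩ := mem_planes.1 hP
  obtain ⟨hpr, hn2⟩ := not_on_swap hpq hn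
  have hn' : ¬ G.on r (G.ln q p) := by rwa [← ln_comm hpq]
  obtain ⟨hqr, hn3⟩ := not_on_swap hpq.symm hn'
  by_cases h1 : G.on x (G.ln p q)
  · by_cases h2 : G.on x (G.ln p r)
    · have hxp : x = p := by
        by_contra hxp
        apply hn2
        rw [← G.ln_eq hpr (Ne.symm hxp) (G.on_left _ _) h2,
          G.ln_eq hpq (Ne.symm hxp) (G.on_left _ _) h1]
        exact G.on_right _ _
      exact ⟨q, hq, r, hr, G.in_snd _ _ _, G.in_trd _ _ _, hqr, hxp ▸ hn3⟩
    · exact ⟨p, hp, r, hr, G.in_fst _ _ _, G.in_trd _ _ _, hpr, h2⟩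
  · exact ⟨p, hp, q, hq, G.in_fst _ _ _, G.in_snd _ _ _, hpq, h1⟩

theorem card_planes_erase (S : Finset α) (x : α) :
    (G.planes S).card ≤ (G.planes (S.erase x)).card + (G.inside S (G.nb S x)).card := by
  have h1 : (G.planes S \ G.planes (S.erase x)).card ≤ (G.inside S (G.nb S x)).card := by
    refine card_le_card_of_forall_subsingleton
      (fun P L => G.inP x P ∧ ∃ y z, y ≠ z ∧ G.ln y z = L ∧ G.inP y P ∧ G.inP z P ∧
        ¬ G.on x L) ?_ ?_
    · intro P hP
      rw [mem_sdiff] at hP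
      obtain ⟨y, hy, z, hz, hyP, hzP, hyz, hx⟩ := exists_opp hP.1 x
      have hyx : y ≠ x := fun e => hx (e ▸ G.on_left y z)
      have hzx : z ≠ x := fun e => hx (e ▸ G.on_right y z)
      have hall : ∀ w ∈ S, G.inP w P → w ≠ x → G.on w (G.ln y z) := by
        intro w hw hwP hwx
        by_contra hn
        exact hP.2 (mem_planes.2 ⟨y, mem_erase.2 ⟨hyx, hy⟩, z, mem_erase.2 ⟨hzx, hz⟩, w,
          mem_erase.2 ⟨hwx, hw⟩, hyz, hn, eq_pl hP.1 hyz hn hyP hzP hwP⟩)
      have hxP : G.inP x P := by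
        by_contra hxP
        obtain ⟨p, hp, q, hq, r, hr, hpq, hn, rfl⟩ := mem_planes.1 hP.1
        have e1 : p ≠ x := fun e => hxP (e ▸ G.in_fst p q r)
        have e2 : q ≠ x := fun e => hxP (e ▸ G.in_snd p q r)
        have e3 : r ≠ x := fun e => hxP (e ▸ G.in_trd p q r)
        exact hP.2 (mem_planes.2 ⟨p, mem_erase.2 ⟨e1, hp⟩, q, mem_erase.2 ⟨e2, hq⟩, r,
          mem_erase.2 ⟨e3, hr⟩, hpq, hn, rfl⟩)
      refine ⟨G.ln y z, ?_, hxP, y, z, hyz, rfl, hyP, hzP, hx⟩
      rw [inside, mem_filter]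
      refine ⟨ln_mem hy hz hyz, fun w hw => ?_⟩
      rw [mem_pts] at hw
      have hwx : w ≠ x := fun e => hx (e ▸ hw.2)
      have hwP := G.in_of_on hyP hzP hw.2
      refine mem_nb.2 ⟨hw.1, hwx, fun v hv hvon => ?_⟩
      by_contra hc
      push Not at hc
      have hvL := hall v hv (G.in_of_on hxP hwP hvon) hc.1
      apply hx
      rw [← G.ln_eq hyz hc.2 hvL hw.2, G.ln_eq hwx.symm hc.2 hvon (G.on_right _ _)]
      exact G.on_left _ _
    · intro L hL P hP P' hP'
      simp only [Set.mem_ofPred_eq, mem_sdiff] at hP hP'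
      obtain ⟨⟨hP1, -⟩, hxP, y, z, hyz, rfl, hyP, hzP, hx⟩ := hP
      obtain ⟨⟨hP1', -⟩, hxP', y', z', hyz', he, hyP', hzP', -⟩ := hP'
      have a1 : G.inP y P' := G.in_of_on hyP' hzP' (he ▸ G.on_left y z)
      have a2 : G.inP z P' := G.in_of_on hyP' hzP' (he ▸ G.on_right y z)
      rw [← eq_pl hP1 hyz hx hyP hzP hxP, ← eq_pl hP1' hyz hx a1 a2 hxP']
  have h2 := le_card_sdiff (G.planes (S.erase x)) (G.planes S)
  omega

theorem two_inside_le {S N : Finset α} (hN : N ⊆ S) :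
    2 * ((G.inside S N).card : ℝ) ≤ N.card * (N.card - 1) := by
  rw [← sum_sq (G := G) hN, inside, card_filter]
  push_cast
  rw [mul_sum]
  refine sum_le_sum fun L hL => ?_
  split_ifs with h
  · have h1 : G.pts S L ⊆ G.pts N L := fun y hy =>
      mem_pts.2 ⟨h hy, (mem_pts.1 hy).2⟩
    have h2 : (2 : ℝ) ≤ (G.pts N L).card := by
      exact_mod_cast (two_le_pts hL).trans (card_le_card h1)
    nlinarith
  · rcases Nat.eq_zero_or_pos (G.pts N L).card with h1 | h1
    · simp [h1]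
    · have : (1 : ℝ) ≤ (G.pts N L).card := by exact_mod_cast h1
      nlinarith

/-- every plane contains at least three ordinary lines -/
theorem six_le {S : Finset α} {P : Ψ} (hP : P ∈ G.planes S) :
    6 ≤ ∑ x ∈ S.filter (fun x => G.inP x P), ((G.nb S x).filter fun y => G.inP y P).card := by
  set T := S.filter (fun x => G.inP x P) with hT
  have hm : ∑ L ∈ G.lines T, (G.pts T L).card + 3 ≤ 3 * (G.lines T).card := by
    apply melchior'
    obtain ⟨p, hp, q, hq, r, hr, hpq, hn, rfl⟩ := mem_planes.1 hP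
    exact ⟨p, by simp [hT, hp, G.in_fst], q, by simp [hT, hq, G.in_snd], r,
      by simp [hT, hr, G.in_trd], hpq, hn⟩
  set O := (G.lines T).filter fun L => (G.pts T L).card = 2 with hO
  have h3 : 3 ≤ O.card := by
    have h1 : ∑ L ∈ G.lines T, 3 ≤
        ∑ L ∈ G.lines T, ((G.pts T L).card + if (G.pts T L).card = 2 then 1 else 0) := by
      refine sum_le_sum fun L hL => ?_
      have := two_le_pts hL
      split_ifs <;> omega
    rw [sum_add_distrib, ← card_filter, sum_const, smul_eq_mul, ← hO] at h1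
    omega
  have h4 : ∑ L ∈ O, (G.pts T L).card ≤
      ∑ x ∈ T, ((G.nb S x).filter fun y => G.inP y P).card := by
    have : ∑ L ∈ O, (G.pts T L).card = ∑ x ∈ T, (O.filter fun L => G.on x L).card := by
      simp only [pts, card_filter]
      exact sum_comm
    rw [this]
    refine sum_le_sum fun x hx => ?_
    refine card_le_card_of_forall_subsingleton (fun L y => G.ln x y = L) ?_ ?_
    · intro L hL
      simp only [hO, mem_filter] at hL
      obtain ⟨⟨hL1, hL2⟩, hxL⟩ := hL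
      obtain ⟨y, hy, hyx⟩ := exists_mem_ne (by omega : 1 < (G.pts T L).card) x
      have hy' := mem_pts.1 hy
      have hyT := mem_filter.1 hy'.1
      have hxT := mem_filter.1 hx
      have hL' := eq_ln hL1 hyx.symm hxL hy'.2
      refine ⟨y, mem_filter.2 ⟨mem_nb.2 ⟨hyT.1, hyx, fun z hz hzon => ?_⟩, hyT.2⟩, hL'⟩
      by_contra hc
      push Not at hc
      have hzT : z ∈ T := mem_filter.2 ⟨hz, G.in_of_on hxT.2 hyT.2 hzon⟩
      have : ({x, y, z} : Finset α) ⊆ G.pts T L := by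
        intro w hw
        simp only [mem_insert, mem_singleton] at hw
        rcases hw with rfl | rfl | rfl
        · exact mem_pts.2 ⟨hx, hxL⟩
        · exact hy
        · exact mem_pts.2 ⟨hzT, hL' ▸ hzon⟩
      have h5 := card_le_card this
      rw [card_eq_three.2 ⟨x, y, z, hyx.symm, hc.1.symm, hc.2.symm, rfl⟩] at h5
      omega
    · intro y _ L hL L' hL'
      simp only [Set.mem_ofPred_eq] at hL hL'
      exact hL.2.symm.trans hL'.2
  have h5 : ∑ L ∈ O, (G.pts T L).card = ∑ _L ∈ O, 2 :=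
    sum_congr rfl fun L hL => (mem_filter.1 hL).2
  rw [h5, sum_const, smul_eq_mul] at h4
  omega

theorem planes_thru_le {S : Finset α} {x y : α} (hx : x ∈ S) (hxy : x ≠ y) :
    ((G.planes S).filter fun P => G.inP x P ∧ G.inP y P).card ≤ (G.thru S x).card := by
  refine card_le_card_of_forall_subsingleton
    (fun P L => ∃ z, G.inP z P ∧ G.ln x z = L ∧ ¬ G.on z (G.ln x y)) ?_ ?_
  · intro P hP
    rw [mem_filter] at hP
    obtain ⟨u, hu, v, hv, huP, hvP, huv, hn⟩ := exists_opp hP.1 x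
    obtain ⟨z, hz, hzP, hzn⟩ : ∃ z ∈ S, G.inP z P ∧ ¬ G.on z (G.ln x y) := by
      by_contra hc
      push Not at hc
      apply hn
      rw [G.ln_eq hxy huv (hc u hu huP) (hc v hv hvP)]
      exact G.on_left _ _
    have hxz : x ≠ z := fun e => hzn (e ▸ G.on_left x y)
    exact ⟨G.ln x z, mem_filter.2 ⟨ln_mem hx hz hxz, G.on_left _ _⟩, z, hzP, rfl, hzn⟩
  · intro L _ P hP P' hP'
    simp only [Set.mem_ofPred_eq, mem_filter] at hP hP'
    obtain ⟨⟨hP1, hxP, hyP⟩, z, hzP, rfl, hzn⟩ := hP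
    obtain ⟨⟨hP1', hxP', hyP'⟩, z', hzP', he, -⟩ := hP'
    have : G.inP z P' := G.in_of_on hxP' hzP' (he ▸ G.on_right x z)
    rw [← eq_pl hP1 hxy hzn hxP hyP hzP, ← eq_pl hP1' hxy hzn hxP' hyP' this]

theorem six_planes_le (S : Finset α) :
    6 * (G.planes S).card ≤ ∑ x ∈ S, (G.nb S x).card * (G.thru S x).card := by
  calc 6 * (G.planes S).card = ∑ _P ∈ G.planes S, 6 := by simp [mul_comm]
    _ ≤ ∑ P ∈ G.planes S, ∑ x ∈ S.filter (fun x => G.inP x P),
        ((G.nb S x).filter fun y => G.inP y P).card := sum_le_sum fun P hP => six_le hP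
    _ = ∑ x ∈ S, ∑ y ∈ G.nb S x,
        ((G.planes S).filter fun P => G.inP x P ∧ G.inP y P).card := by
      simp only [sum_filter, card_filter]
      rw [sum_comm]
      refine sum_congr rfl fun x _ => ?_
      rw [sum_comm (s := G.nb S x)]
      refine sum_congr rfl fun P _ => ?_
      by_cases h : G.inP x P <;> simp [h]
    _ ≤ ∑ x ∈ S, ∑ _y ∈ G.nb S x, (G.thru S x).card := by
      refine sum_le_sum fun x hx => sum_le_sum fun y hy => ?_
      exact planes_thru_le hx (mem_nb.1 hy).2.1.symm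
    _ = _ := by simp

end Geo

end Pool.Agent.Lib.MP_9f1016_co
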