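import Pool.Agent.Lib.MP_9f1016_co.Geo

/-!
# The inequality `n p ≤ l ^ 2`
-/

namespace Pool.Agent.Lib.MP_9f1016_co

open Finset

theorem line_ineq (i j : ℕ) (c : ℝ) (hc : 0 < c) (hi : 1 ≤ i) (hj : 1 ≤ j) :
    (i : ℝ) * j ≤ c / 2 * (i * (i - 1)) + (j * (j - 1)) / (2 * c) + (i + j - 1) := by
  have hi' : (1 : ℝ) ≤ i := by exact_mod_cast hi
  have hj' : (1 : ℝ) ≤ j := by exact_mod_cast hj
  have h1 : ((i : ℝ) - 1) * (j - 1) ≤ c / 2 * (i - 1) ^ 2 + (j - 1) ^ 2 / (2 * c) := by
    have : c / 2 * ((i : ℝ) - 1) ^ 2 + (j - 1) ^ 2 / (2 * c) - (i - 1) * (j - 1)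
        = (c * (i - 1) - (j - 1)) ^ 2 / (2 * c) := by
      field_simp
      ring
    have h2 : 0 ≤ (c * ((i : ℝ) - 1) - (j - 1)) ^ 2 / (2 * c) := by positivity
    linarith
  have h2 : c / 2 * ((i : ℝ) - 1) ^ 2 ≤ c / 2 * (i * (i - 1)) := by
    apply mul_le_mul_of_nonneg_left _ (by positivity)
    nlinarith
  have h3 : ((j : ℝ) - 1) ^ 2 / (2 * c) ≤ (j * (j - 1)) / (2 * c) := by
    apply div_le_div_of_nonneg_right _ (by positivity)
    nlinarith
  nlinarith

theorem nat_mul_pred_nonneg (i : ℕ) : (0 : ℝ) ≤ i * (i - 1) := by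
  rcases Nat.eq_zero_or_pos i with h | h
  · simp [h]
  · have : (1 : ℝ) ≤ i := by exact_mod_cast h
    nlinarith

theorem arith_aux (m o : ℝ) (hm : 4 / 3 ≤ m) (ho : 3 / 2 * m < o)
    (h : m ^ 2 * (m / 2 - 1) < (m - o / 2 - 3) * (4 * (o - m))) : False := by
  obtain ⟨d, rfl⟩ : ∃ d, o = m + d := ⟨o - m, by ring⟩
  have hd : m / 2 < d := by linarith
  have hm0 : 0 < m := by linarith
  by_cases h1 : d ≤ m
  · have e1 : m * d ≤ m * m := mul_le_mul_of_nonneg_left h1 hm0.le
    have e2 : m / 2 * d ≤ d * d := mul_le_mul_of_nonneg_right hd.le (by linarith)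
    have e3 : 0 ≤ m * (m - 2) ^ 2 := by positivity
    nlinarith
  · have e1 : m * d ≤ d * d := mul_le_mul_of_nonneg_right (by linarith) (by linarith)
    have e3 : 0 ≤ m * (m - 1) ^ 2 := by positivity
    nlinarith

theorem arith_one (n o b l lam : ℝ) (hn : n = o + b + 1) (ho : 0 ≤ o) (hb : 0 ≤ b)
    (hl : 2 * n ≤ 3 * l) (h1 : lam + o ≤ l) (h2 : 2 * lam ≤ o * (o - 1))
    (h3 : ∀ c : ℝ, 0 < c →
      o * b ≤ c / 2 * (b * (b - 1)) + (o * (o - 1) - 2 * lam) / (2 * c) + 2 * l - 3 - lam - o)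
    (h4 : 2 * l < n * o) :
    n * (n - 1) * lam + n * o ^ 2 + l ^ 2 ≤ 2 * n * l * o := by
  have hn0 : 0 < n := by linarith
  obtain ⟨m, rfl⟩ : ∃ m, l = n * m / 2 := ⟨2 * l / n, by field_simp⟩
  have hm : 4 / 3 ≤ m := by
    by_contra h
    nlinarith
  have hom : m < o := by
    by_contra h
    nlinarith
  suffices h : (n - 1) * lam + o ^ 2 + n * m ^ 2 / 4 ≤ n * m * o by nlinarith
  by_contra hcon
  push Not at hcon
  by_cases hcase : o ≤ 3 / 2 * m
  · have e1 : (n - 1) * lam ≤ (n - 1) * (o * (o - 1) / 2) :=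
      mul_le_mul_of_nonneg_left (by linarith) (by linarith)
    have e2 : o ^ 2 / 2 - m * o + m ^ 2 / 4 ≤ 0 := by nlinarith
    have e3 : n * (o ^ 2 / 2 - m * o + m ^ 2 / 4) ≤ 0 := mul_nonpos_of_nonneg_of_nonpos hn0.le e2
    nlinarith
  push Not at hcase
  have hn1 : 0 < n - 1 := by linarith
  obtain ⟨ξ, hξ⟩ : ∃ ξ, ξ * (n - 1) = (o - m / 2) ^ 2 := ⟨(o - m / 2) ^ 2 / (n - 1), by field_simp⟩
  have hlam : m * o - m ^ 2 / 4 - ξ < lam := by
    by_contra h
    push Not at h
    have := mul_le_mul_of_nonneg_left h hn1.le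
    nlinarith
  have hξo : ξ ≤ o := by
    by_contra h
    push Not at h
    have := mul_lt_mul_of_pos_right h hn1
    nlinarith
  have ho2 : o < n / 2 + m / 4 := by
    by_contra h
    push Not at h
    nlinarith
  have hξ2 : 2 * ξ ≤ o := by
    by_contra h
    push Not at h
    have := mul_lt_mul_of_pos_right h hn1
    nlinarith
  have hb1 : o - m / 2 - 1 < b := by linarith
  have hb0 : 0 < b := by linarith
  have hd : 0 < o - m := by linarith
  have h5 := h3 ((o - m) / b) (div_pos hd hb0)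
  have e1 : (o - m) / b / 2 * (b * (b - 1)) = (o - m) * (b - 1) / 2 := by field_simp
  have e2 : (o * (o - 1) - 2 * lam) / (2 * ((o - m) / b))
      = b * (o * (o - 1) - 2 * lam) / (2 * (o - m)) := by field_simp
  rw [e1, e2] at h5
  have e3 : o * (o - 1) - 2 * lam ≤ (o - m) ^ 2 - m ^ 2 / 2 := by nlinarith
  have e4 : b * (o * (o - 1) - 2 * lam) / (2 * (o - m))
      ≤ b * (o - m) / 2 - b * m ^ 2 / (4 * (o - m)) := by
    rw [div_le_iff₀ (by linarith)]
    have : (b * (o - m) / 2 - b * m ^ 2 / (4 * (o - m))) * (2 * (o - m))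
        = b * ((o - m) ^ 2 - m ^ 2 / 2) := by
      field_simp
      ring
    rw [this]
    exact mul_le_mul_of_nonneg_left e3 hb0.le
  have hnm : n * m = o * m + b * m + m := by rw [hn]; ring
  have e5 : b * m ^ 2 / (4 * (o - m)) < m + m ^ 2 / 4 - o / 2 - 3 := by linarith
  rw [div_lt_iff₀ (by linarith)] at e5
  have e6 : (o - m / 2 - 1) * m ^ 2 ≤ b * m ^ 2 :=
    mul_le_mul_of_nonneg_right hb1.le (sq_nonneg m)
  have e7 : m ^ 2 * (m / 2 - 1) < (m - o / 2 - 3) * (4 * (o - m)) := by linarith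
  exact arith_aux m o hm hcase e7

namespace Geo

variable {α Λ Ψ : Type*} {G : Geo α Λ Ψ}

open Classical

theorem key_ineq {S : Finset α} {x : α} (hx : x ∈ S)
    (hnc : ∃ p ∈ S, ∃ q ∈ S, ∃ r ∈ S, p ≠ q ∧ ¬ G.on r (G.ln p q)) (c : ℝ) (hc : 0 < c) :
    ((G.nb S x).card : ℝ) * (S.erase x \ G.nb S x).card ≤
      c / 2 * ((S.erase x \ G.nb S x).card * ((S.erase x \ G.nb S x).card - 1)) +
      ((G.nb S x).card * ((G.nb S x).card - 1) - 2 * (G.inside S (G.nb S x)).card) / (2 * c) +
      2 * (G.lines S).card - 3 - (G.inside S (G.nb S x)).card - (G.nb S x).card := by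
  set N := G.nb S x with hN
  set B := S.erase x \ N with hB
  have hNS : N ⊆ S := (nb_subset S x).trans (erase_subset _ _)
  have hBS : B ⊆ S := sdiff_subset.trans (erase_subset _ _)
  have hdisj : Disjoint B N := sdiff_disjoint
  have s1 := sum_mul (G := G) hBS hNS hdisj
  have s2 := sum_sq (G := G) hBS
  have s3 := sum_sq (G := G) hNS
  have s4 : (∑ L ∈ G.lines S, ((G.pts S L).card : ℝ)) + 3 ≤ 3 * (G.lines S).card := by
    exact_mod_cast melchior' hnc
  set O := N.image (G.ln x) with hO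
  have hOc : O.card = N.card := card_image_of_injOn (ln_injOn_nb S x)
  have hOs : O ⊆ G.lines S := by
    intro L hL
    obtain ⟨y, hy, rfl⟩ := mem_image.1 hL
    rw [hN, mem_nb] at hy
    exact ln_mem hx hy.1 hy.2.1.symm
  have s5 : ∑ L ∈ G.lines S, (if L ∈ O then (1 : ℝ) else 0) = N.card := by
    rw [sum_ite_mem, inter_eq_right.2 hOs]
    simp [hOc]
  have s6 : ∑ L ∈ G.lines S, (if G.pts S L ⊆ N then (1 : ℝ) else 0) = (G.inside S N).card := by
    rw [inside, card_filter]
    push_cast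
    rfl
  have hline : ∀ L ∈ G.lines S, ((G.pts B L).card : ℝ) * (G.pts N L).card ≤
      c / 2 * ((G.pts B L).card * ((G.pts B L).card - 1)) +
      ((G.pts N L).card * ((G.pts N L).card - 1)) / (2 * c) + ((G.pts S L).card - 1) -
      (1 + 1 / c) * (if G.pts S L ⊆ N then (1 : ℝ) else 0) - (if L ∈ O then (1 : ℝ) else 0) := by
    intro L hL
    have t2 : (2 : ℝ) ≤ (G.pts S L).card := by exact_mod_cast two_le_pts hL
    have p1 : 0 ≤ c / 2 * (((G.pts B L).card : ℝ) * ((G.pts B L).card - 1)) :=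
      mul_nonneg (by positivity) (nat_mul_pred_nonneg _)
    have p2 : 0 ≤ (((G.pts N L).card : ℝ) * ((G.pts N L).card - 1)) / (2 * c) :=
      div_nonneg (nat_mul_pred_nonneg _) (by positivity)
    have hsub : (G.pts B L).card + (G.pts N L).card ≤ (G.pts S L).card := by
      have hd : Disjoint (G.pts B L) (G.pts N L) :=
        hdisj.mono (filter_subset _ _) (filter_subset _ _)
      rw [← card_union_of_disjoint hd]
      refine card_le_card (union_subset ?_ ?_) <;> intro y hy <;> rw [mem_pts] at hy ⊢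
      · exact ⟨hBS hy.1, hy.2⟩
      · exact ⟨hNS hy.1, hy.2⟩
    by_cases hA : G.pts S L ⊆ N
    · have hLO : L ∉ O := by
        intro hLO
        obtain ⟨y, -, rfl⟩ := mem_image.1 hLO
        exact (mem_nb.1 (hA (mem_pts.2 ⟨hx, G.on_left x y⟩))).2.1 rfl
      have hB0 : (G.pts B L).card = 0 := by
        rw [card_eq_zero, eq_empty_iff_forall_notMem]
        intro y hy
        rw [mem_pts] at hy
        exact disjoint_left.1 hdisj hy.1 (hA (mem_pts.2 ⟨hBS hy.1, hy.2⟩))
      have hN2 : (2 : ℝ) ≤ (G.pts N L).card := by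
        have h1 : G.pts S L ⊆ G.pts N L := fun y hy => mem_pts.2 ⟨hA hy, (mem_pts.1 hy).2⟩
        exact_mod_cast (two_le_pts hL).trans (card_le_card h1)
      have p3 : 1 / c ≤ (((G.pts N L).card : ℝ) * ((G.pts N L).card - 1)) / (2 * c) := by
        rw [div_le_div_iff₀ hc (by positivity)]
        have : (2 : ℝ) ≤ (G.pts N L).card * ((G.pts N L).card - 1) := by nlinarith
        nlinarith
      rw [if_pos hA, if_neg hLO, hB0]
      simp only [Nat.cast_zero, zero_mul, mul_zero]
      linarith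
    · rw [if_neg hA]
      by_cases hLO : L ∈ O
      · obtain ⟨y, hy, rfl⟩ := mem_image.1 hLO
        have hB0 : (G.pts B (G.ln x y)).card = 0 := by
          rw [card_eq_zero, eq_empty_iff_forall_notMem]
          intro z hz
          rw [mem_pts] at hz
          have hz1 := mem_sdiff.1 hz.1
          rcases (mem_nb.1 hy).2.2 z (hBS hz.1) hz.2 with h | h
          · exact (mem_erase.1 hz1.1).1 h
          · exact hz1.2 (h ▸ hy)
        rw [if_pos hLO, hB0]
        simp only [Nat.cast_zero, zero_mul, mul_zero]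
        linarith
      · rw [if_neg hLO]
        rcases Nat.eq_zero_or_pos (G.pts B L).card with h1 | h1
        · rw [h1]
          simp only [Nat.cast_zero, zero_mul, mul_zero]
          linarith
        rcases Nat.eq_zero_or_pos (G.pts N L).card with h2 | h2
        · rw [h2] at p2 ⊢
          simp only [Nat.cast_zero, zero_mul, mul_zero]
          linarith
        have := line_ineq _ _ c hc h1 h2
        have hsub' : ((G.pts B L).card : ℝ) + (G.pts N L).card ≤ (G.pts S L).card := by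
          exact_mod_cast hsub
        linarith
  have s7 := sum_le_sum hline
  rw [s1, sum_sub_distrib, sum_sub_distrib, sum_add_distrib, sum_add_distrib, ← mul_sum, ← sum_div,
    ← mul_sum, s2, s3, s5, s6, sum_sub_distrib] at s7
  simp only [sum_const, nsmul_eq_mul, mul_one] at s7
  have e : ((N.card : ℝ) * (N.card - 1) - 2 * (G.inside S N).card) / (2 * c)
      = (N.card * (N.card - 1)) / (2 * c) - 1 / c * (G.inside S N).card := by
    field_simp
  rw [e]
  nlinarith

theorem two_le_thru {S : Finset α} {x : α} (hx : x ∈ S)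
    (hnc : ∃ p ∈ S, ∃ q ∈ S, ∃ r ∈ S, p ≠ q ∧ ¬ G.on r (G.ln p q)) :
    2 ≤ (G.thru S x).card := by
  obtain ⟨p, hp, q, hq, r, hr, hpq, hn⟩ := hnc
  obtain ⟨y, hy, z, hz, -, -, hyz, hxn⟩ :=
    exists_opp (mem_planes.2 ⟨p, hp, q, hq, r, hr, hpq, hn, rfl⟩) x
  have hxy : x ≠ y := fun e => hxn (e ▸ G.on_left _ _)
  have hxz : x ≠ z := fun e => hxn (e ▸ G.on_right _ _)
  have hne : G.ln x y ≠ G.ln x z := by
    intro e
    apply hxn
    rw [G.ln_eq hxy hyz (G.on_right _ _) (e ▸ G.on_right _ _)]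
    exact G.on_left _ _
  have : ({G.ln x y, G.ln x z} : Finset Λ) ⊆ G.thru S x := by
    intro L hL
    simp only [mem_insert, mem_singleton] at hL
    rcases hL with rfl | rfl
    · exact mem_filter.2 ⟨ln_mem hx hy hxy, G.on_left _ _⟩
    · exact mem_filter.2 ⟨ln_mem hx hz hxz, G.on_left _ _⟩
  simpa [card_pair hne] using card_le_card this

theorem log_concave (S : Finset α) : S.card * (G.planes S).card ≤ (G.lines S).card ^ 2 := by
  induction S using Finset.strongInduction with
  | H S ih =>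
  by_cases hnc : ∃ p ∈ S, ∃ q ∈ S, ∃ r ∈ S, p ≠ q ∧ ¬ G.on r (G.ln p q)
  swap
  · have : G.planes S = ∅ := by
      rw [eq_empty_iff_forall_notMem]
      intro P hP
      obtain ⟨p, hp, q, hq, r, hr, hpq, hn, -⟩ := mem_planes.1 hP
      exact hnc ⟨p, hp, q, hq, r, hr, hpq, hn⟩
    simp [this]
  have hM := melchior' hnc
  rw [← sum_thru] at hM
  by_cases hcase : ∀ x ∈ S, S.card * (G.nb S x).card ≤ 2 * (G.lines S).card
  · have h1 := six_planes_le (G := G) S
    have h2 : S.card * ∑ x ∈ S, (G.nb S x).card * (G.thru S x).card ≤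
        2 * (G.lines S).card * ∑ x ∈ S, (G.thru S x).card := by
      rw [mul_sum, mul_sum]
      refine sum_le_sum fun x hx => ?_
      rw [← mul_assoc]
      exact Nat.mul_le_mul_right _ (hcase x hx)
    nlinarith
  push Not at hcase
  obtain ⟨x, hx, hox⟩ := hcase
  have i1 := ih (S.erase x) (erase_ssubset hx)
  have i2 := card_lines_erase (G := G) hx
  have i3 := card_planes_erase (G := G) S x
  have i4 := card_inside_add (G := G) hx
  have i5 := two_inside_le (G := G) ((nb_subset (G := G) S x).trans (erase_subset x S))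
  have i6 := key_ineq hx hnc
  have i7 : 2 * S.card ≤ ∑ x ∈ S, (G.thru S x).card := by
    calc 2 * S.card = ∑ _x ∈ S, 2 := by simp [mul_comm]
      _ ≤ _ := sum_le_sum fun y hy => two_le_thru hy hnc
  have i8 := card_sdiff_add_card_eq_card (nb_subset (G := G) S x)
  have i9 := card_erase_add_one hx
  have key := arith_one S.card (G.nb S x).card (S.erase x \ G.nb S x).card (G.lines S).card
    (G.inside S (G.nb S x)).card (by exact_mod_cast (by omega)) (by positivity) (by positivity)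
    (by exact_mod_cast (by omega)) (by exact_mod_cast i4) i5 i6 (by exact_mod_cast hox)
  have j1 : ((S.card : ℝ) - 1) * (G.planes (S.erase x)).card ≤
      ((G.lines S).card - (G.nb S x).card) ^ 2 := by
    have a1 : ((S.erase x).card : ℝ) = S.card - 1 := by
      rw [← i9]
      push_cast
      ring
    have a2 : ((G.lines (S.erase x)).card : ℝ) ≤ (G.lines S).card - (G.nb S x).card := by
      have : ((G.lines (S.erase x)).card : ℝ) + (G.nb S x).card ≤ (G.lines S).card := by
        exact_mod_cast i2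
      linarith
    have a3 : ((S.erase x).card : ℝ) * (G.planes (S.erase x)).card ≤
        ((G.lines (S.erase x)).card : ℝ) ^ 2 := by exact_mod_cast i1
    rw [← a1]
    exact a3.trans (pow_le_pow_left₀ (by positivity) a2 2)
  have j2 : ((G.planes S).card : ℝ) ≤
      (G.planes (S.erase x)).card + (G.inside S (G.nb S x)).card := by exact_mod_cast i3
  have j3 : (1 : ℝ) < S.card := by
    obtain ⟨p, hp, q, hq, -, -, hpq, -⟩ := hnc
    exact_mod_cast one_lt_card.2 ⟨p, hp, q, hq, hpq⟩
  have j4 : ((S.card : ℝ) - 1) * (S.card * (G.planes S).card) ≤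
      ((S.card : ℝ) - 1) * (G.lines S).card ^ 2 := by
    have b1 := mul_le_mul_of_nonneg_left j2 (by nlinarith : (0 : ℝ) ≤ S.card * (S.card - 1))
    have b2 := mul_le_mul_of_nonneg_left j1 (by linarith : (0 : ℝ) ≤ S.card)
    nlinarith
  have j5 := le_of_mul_le_mul_left j4 (by linarith)
  exact_mod_cast j5

end Geo

end Pool.Agent.Lib.MP_9f1016_co
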