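import Pool.Agent.Lib.MP_9f1016_co.Affine
import Pool.Agent.Lib.MP_9f1016_co.LogConcave

/-!
# `l(S)^2 ≥ |S| p(S)` for every finite set of points of real three-space
-/

namespace Pool.Agent.Lib.MP_9f1016_co.LinesSquared

/-- The number of lines containing at least two points of `S`. -/
noncomputable def numLines (S : Finset (EuclideanSpace ℝ (Fin 3))) : ℕ :=
  {L : AffineSubspace ℝ (EuclideanSpace ℝ (Fin 3)) | Module.finrank ℝ L.direction = 1 ∧
    ∃ p ∈ S, ∃ q ∈ S, p ≠ q ∧ p ∈ L ∧ q ∈ L}.ncard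

/-- The number of planes containing at least three non-collinear points of `S`. -/
noncomputable def numPlanes (S : Finset (EuclideanSpace ℝ (Fin 3))) : ℕ :=
  {P : AffineSubspace ℝ (EuclideanSpace ℝ (Fin 3)) | Module.finrank ℝ P.direction = 2 ∧
    ∃ p ∈ S, ∃ q ∈ S, ∃ r ∈ S,
      ¬ Collinear ℝ ({p, q, r} : Set (EuclideanSpace ℝ (Fin 3))) ∧ p ∈ P ∧ q ∈ P ∧ r ∈ P}.ncard

theorem result (S : Finset (EuclideanSpace ℝ (Fin 3))) :
    S.card * numPlanes S ≤ numLines S ^ 2 := by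
  unfold numLines numPlanes
  rw [← Pool.Agent.Lib.MP_9f1016_co.coe_lines, ← Pool.Agent.Lib.MP_9f1016_co.coe_planes,
    Set.ncard_coe_finset, Set.ncard_coe_finset]
  exact Pool.Agent.Lib.MP_9f1016_co.Geo.log_concave S

end Pool.Agent.Lib.MP_9f1016_co.LinesSquared
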