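import Pool.Agent.Lib.MP_9f1016_co.Plane

/-!
# The inequality `3 n p ≤ 2 l ^ 2`
-/

namespace Pool.Agent.Lib.MP_9f1016_co

open Finset

namespace Geo

variable {α Λ Ψ : Type*} (G : Geo α Λ Ψ)

open Classical

/-- the points of `S` in the plane `P` -/
noncomputable def sec (S : Finset α) (P : Ψ) : Finset α := S.filter fun x => G.inP x P

/-- the weight of an ordered pair of points -/
noncomputable def wt (T : Finset α) (x y : α) : ℝ :=
  if y = x then 0 else 2 / G.kk T (G.ln x y) / (G.kk T (G.ln x y) - 1)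

/-- the planes through two points -/
noncomputable def book (S : Finset α) (x y : α) : Finset Ψ :=
  (G.planes S).filter fun P => G.inP x P ∧ G.inP y P

variable {G}

theorem mem_sec {S : Finset α} {P : Ψ} {x : α} : x ∈ G.sec S P ↔ x ∈ S ∧ G.inP x P := by
  simp [sec]

theorem sec_nc {S : Finset α} {P : Ψ} (hP : P ∈ G.planes S) :
    ∃ p ∈ G.sec S P, ∃ q ∈ G.sec S P, ∃ r ∈ G.sec S P, p ≠ q ∧ ¬ G.on r (G.ln p q) := by
  obtain ⟨p, hp, q, hq, r, hr, hpq, hn, rfl⟩ := mem_planes.1 hP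
  exact ⟨p, mem_sec.2 ⟨hp, G.in_fst _ _ _⟩, q, mem_sec.2 ⟨hq, G.in_snd _ _ _⟩, r,
    mem_sec.2 ⟨hr, G.in_trd _ _ _⟩, hpq, hn⟩

theorem kk_sec {S : Finset α} {P : Ψ} {x y : α} (hx : G.inP x P) (hy : G.inP y P) :
    G.kk (G.sec S P) (G.ln x y) = G.kk S (G.ln x y) := by
  unfold kk
  congr 2
  ext z
  simp only [mem_pts, mem_sec]
  exact ⟨fun h => ⟨h.1.1, h.2⟩, fun h => ⟨⟨h.1, G.in_of_on hx hy h.2⟩, h.2⟩⟩

theorem wt_sec {S : Finset α} {P : Ψ} {x y : α} (hx : G.inP x P) (hy : G.inP y P) :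
    G.wt (G.sec S P) x y = G.wt S x y := by
  unfold wt
  rw [kk_sec hx hy]

theorem star_wt {T : Finset α} {x : α} (hx : x ∈ T) (φ : Λ → ℝ) :
    ∑ y ∈ T, G.wt T x y * φ (G.ln x y) = ∑ L ∈ G.thru T x, 2 / G.kk T L * φ L := by
  rw [sum_star (G := G) hx _ (by simp [wt])]
  refine sum_congr rfl fun L hL => ?_
  rw [mem_thru] at hL
  have hxL : x ∈ G.pts T L := mem_pts.2 ⟨hx, hL.2⟩
  rw [← add_sum_erase _ _ hxL, sum_congr rfl (g := fun _ => 2 / G.kk T L / (G.kk T L - 1) * φ L)]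
  · have h1 : (((G.pts T L).erase x).card : ℝ) = G.kk T L - 1 := by
      rw [kk, ← card_erase_add_one hxL]
      push_cast
      ring
    have h2 : G.kk T L - 1 ≠ 0 := by linarith [two_le_kk hL.1]
    rw [sum_const, nsmul_eq_mul, h1, wt, if_pos rfl]
    field_simp
    ring
  · intro y hy
    rw [mem_erase] at hy
    rw [wt, if_neg hy.1, eq_ln hL.1 hy.1.symm hL.2 (mem_pts.1 hy.2).2]

theorem rho_sub {T : Finset α} {x y : α} (hx : x ∈ T) (hy : y ∈ T) (hxy : x ≠ y) :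
    G.rho T x - 2 / G.kk T (G.ln x y) =
      ∑ z ∈ T.filter (fun z => ¬ G.on z (G.ln x y)), G.wt T x z := by
  have h := star_wt (G := G) hx (fun L => if L = G.ln x y then 0 else 1)
  have hM : G.ln x y ∈ G.thru T x := mem_thru.2 ⟨ln_mem hx hy hxy, G.on_left _ _⟩
  rw [← add_sum_erase _ _ hM, if_pos rfl, mul_zero, zero_add,
    sum_congr rfl (s₂ := (G.thru T x).erase (G.ln x y)) (g := fun L => 2 / G.kk T L)
      (fun L hL => by rw [if_neg (mem_erase.1 hL).1, mul_one])] at h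
  rw [rho, ← add_sum_erase _ _ hM, add_sub_cancel_left, ← h, sum_filter]
  refine sum_congr rfl fun z _ => ?_
  by_cases hz : z = x
  · simp [wt, hz]
  by_cases h1 : G.on z (G.ln x y)
  · rw [if_pos (G.ln_eq hxy (Ne.symm hz) (G.on_left _ _) h1), if_neg (not_not.2 h1), mul_zero]
  · rw [if_neg (fun e : G.ln x z = G.ln x y => h1 (e ▸ G.on_right x z)), if_pos h1, mul_one]

theorem sum_book {S : Finset α} {x y : α} (hx : x ∈ S) (hy : y ∈ S) (hxy : x ≠ y) (f : α → ℝ) :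
    ∑ z ∈ S.filter (fun z => ¬ G.on z (G.ln x y)), f z =
      ∑ P ∈ G.book S x y, ∑ z ∈ (G.sec S P).filter (fun z => ¬ G.on z (G.ln x y)), f z := by
  rw [← sum_fiberwise_of_maps_to (t := G.book S x y) (g := G.pl x y)]
  · refine sum_congr rfl fun P hP => ?_
    rw [book, mem_filter] at hP
    congr 1
    ext z
    simp only [mem_filter, mem_sec]
    constructor
    · rintro ⟨⟨h1, h2⟩, rfl⟩
      exact ⟨⟨h1, G.in_trd _ _ _⟩, h2⟩
    · rintro ⟨⟨h1, h2⟩, h3⟩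
      exact ⟨⟨h1, h3⟩, eq_pl hP.1 hxy h3 hP.2.1 hP.2.2 h2⟩
  · intro z hz
    rw [mem_filter] at hz
    exact mem_filter.2 ⟨mem_planes.2 ⟨x, hx, y, hy, z, hz.1, hxy, hz.2, rfl⟩, G.in_fst _ _ _,
      G.in_snd _ _ _⟩

theorem rho_book {S : Finset α} {x y : α} (hx : x ∈ S) (hy : y ∈ S) (hxy : x ≠ y) :
    G.rho S x - 2 / G.kk S (G.ln x y) =
      ∑ P ∈ G.book S x y, (G.rho (G.sec S P) x - 2 / G.kk S (G.ln x y)) := by
  rw [rho_sub hx hy hxy, sum_book hx hy hxy]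
  refine sum_congr rfl fun P hP => ?_
  rw [book, mem_filter] at hP
  rw [← kk_sec (S := S) hP.2.1 hP.2.2,
    rho_sub (mem_sec.2 ⟨hx, hP.2.1⟩) (mem_sec.2 ⟨hy, hP.2.2⟩) hxy]
  refine sum_congr rfl fun z hz => ?_
  rw [wt_sec hP.2.1 (mem_sec.1 (mem_filter.1 hz).1).2]

theorem card_off (T : Finset α) (L : Λ) :
    ∑ _z ∈ T.filter (fun z => ¬ G.on z L), (1 : ℝ) = T.card - G.kk T L := by
  have := card_filter_add_card_filter_not (s := T) (fun z => G.on z L)
  rw [sum_const, nsmul_eq_mul, mul_one, kk, pts, ← this]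
  push_cast
  ring

theorem pair_ineq {S : Finset α} {x y : α} (hx : x ∈ S) (hy : y ∈ S) :
    (G.rho S x - G.rho S y) ^ 2 ≤ S.card * ∑ P ∈ G.book S x y,
      (G.rho (G.sec S P) x - G.rho (G.sec S P) y) ^ 2 /
        ((G.sec S P).card - G.kk (G.sec S P) (G.ln x y)) := by
  by_cases hxy : x = y
  · simp [hxy]
  have h1 := rho_book (G := G) hx hy hxy
  have h2 := rho_book (G := G) hy hx (Ne.symm hxy)
  have hb : G.book S y x = G.book S x y := by
    simp only [book, and_comm]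
  rw [hb, ← ln_comm hxy] at h2
  have h3 : G.rho S x - G.rho S y =
      ∑ P ∈ G.book S x y, (G.rho (G.sec S P) x - G.rho (G.sec S P) y) := by
    rw [sum_sub_distrib] at h1 h2 ⊢
    linarith
  have h4 := sum_book (G := G) hx hy hxy (fun _ => 1)
  simp only [card_off] at h4
  have hpos : ∀ P ∈ G.book S x y, (0 : ℝ) < (G.sec S P).card - G.kk (G.sec S P) (G.ln x y) := by
    intro P hP
    rw [book, mem_filter] at hP
    have := kk_lt (sec_nc hP.1) (ln_mem (mem_sec.2 ⟨hx, hP.2.1⟩) (mem_sec.2 ⟨hy, hP.2.2⟩) hxy)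
    rw [sub_pos, kk]
    exact_mod_cast this
  have h5 := sum_sq_le_sum_mul_sum_of_sq_le_mul (G.book S x y)
    (r := fun P => G.rho (G.sec S P) x - G.rho (G.sec S P) y)
    (f := fun P => ((G.sec S P).card : ℝ) - G.kk (G.sec S P) (G.ln x y))
    (g := fun P => (G.rho (G.sec S P) x - G.rho (G.sec S P) y) ^ 2 /
        ((G.sec S P).card - G.kk (G.sec S P) (G.ln x y)))
    (fun P hP => (hpos P hP).le) (fun P hP => div_nonneg (sq_nonneg _) (hpos P hP).le)
    (fun P hP => by rw [mul_div_cancel₀ _ (hpos P hP).ne'])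
  rw [h3]
  refine h5.trans (mul_le_mul_of_nonneg_right ?_
    (sum_nonneg fun P hP => div_nonneg (sq_nonneg _) (hpos P hP).le))
  linarith [two_le_kk (ln_mem (G := G) hx hy hxy)]

theorem swap_book (S : Finset α) (F : Ψ → α → α → ℝ) :
    ∑ x ∈ S, ∑ y ∈ S, ∑ P ∈ G.book S x y, F P x y =
      ∑ P ∈ G.planes S, ∑ x ∈ G.sec S P, ∑ y ∈ G.sec S P, F P x y := by
  simp only [book, sec, sum_filter]
  rw [sum_comm (s := G.planes S)]
  refine sum_congr rfl fun x _ => ?_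
  rw [sum_comm]
  refine sum_congr rfl fun P _ => ?_
  by_cases h : G.inP x P <;> simp [h]

theorem sum_wt_mul (T : Finset α) :
    ∑ x ∈ T, ∑ y ∈ T, G.wt T x y * (G.rho T x - 2 / G.kk T (G.ln x y)) =
      ∑ x ∈ T, G.rho T x ^ 2 - 2 * ∑ L ∈ G.lines T, 2 / G.kk T L := by
  have h1 : ∀ x ∈ T, ∑ y ∈ T, G.wt T x y * (G.rho T x - 2 / G.kk T (G.ln x y)) =
      G.rho T x ^ 2 - ∑ L ∈ G.thru T x, 2 / G.kk T L * (2 / G.kk T L) := by
    intro x hx
    rw [star_wt hx (fun L => G.rho T x - 2 / G.kk T L)]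
    simp only [mul_sub, sum_sub_distrib, ← Finset.sum_mul, sq]
    rfl
  rw [sum_congr rfl h1, sum_sub_distrib, swap_thru T T (fun _ L => 2 / G.kk T L * (2 / G.kk T L)),
    mul_sum]
  congr 1
  refine sum_congr rfl fun L hL => ?_
  have := two_le_kk hL
  rw [sum_const, nsmul_eq_mul]
  change G.kk T L * _ = _
  field_simp

theorem sum_planes_le (S : Finset α) :
    ∑ P ∈ G.planes S, (∑ x ∈ G.sec S P, G.rho (G.sec S P) x ^ 2 -
      2 * ∑ L ∈ G.lines (G.sec S P), 2 / G.kk (G.sec S P) L) ≤ ∑ x ∈ S, G.rho S x ^ 2 := by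
  simp only [← sum_wt_mul]
  rw [← swap_book S (fun P x y => G.wt (G.sec S P) x y *
    (G.rho (G.sec S P) x - 2 / G.kk (G.sec S P) (G.ln x y)))]
  have h1 : ∀ x ∈ S, ∀ y ∈ S, ∑ P ∈ G.book S x y, G.wt (G.sec S P) x y *
      (G.rho (G.sec S P) x - 2 / G.kk (G.sec S P) (G.ln x y)) =
      G.wt S x y * (G.rho S x - 2 / G.kk S (G.ln x y)) := by
    intro x hx y hy
    by_cases hxy : x = y
    · simp [wt, hxy]
    rw [rho_book hx hy hxy, mul_sum]
    refine sum_congr rfl fun P hP => ?_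
    rw [book, mem_filter] at hP
    rw [wt_sec hP.2.1 hP.2.2, kk_sec hP.2.1 hP.2.2]
  rw [sum_congr rfl fun x hx => sum_congr rfl (h1 x hx), sum_wt_mul]
  have : 0 ≤ ∑ L ∈ G.lines S, 2 / G.kk S L := sum_nonneg fun L hL => (two_div_le (two_le_kk hL)).1
  linarith

theorem three_halves (S : Finset α) :
    3 * ((S.card : ℝ) * (G.planes S).card) ≤ 2 * ((G.lines S).card : ℝ) ^ 2 := by
  have h1 := sum_sq_sub S (G.rho S)
  rw [sum_rho] at h1
  have h2 := sum_le_sum fun x hx => sum_le_sum fun y hy => pair_ineq (G := G) (S := S) hx hy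
  simp only [← mul_sum] at h2
  rw [swap_book S (fun P x y => (G.rho (G.sec S P) x - G.rho (G.sec S P) y) ^ 2 /
        ((G.sec S P).card - G.kk (G.sec S P) (G.ln x y)))] at h2
  have h3 := sum_le_sum fun P (hP : P ∈ G.planes S) => plane_ineq (sec_nc hP)
  rw [← mul_sum, sum_sub_distrib, sum_const, nsmul_eq_mul] at h3
  have h4 := sum_planes_le (G := G) S
  have h5 := mul_le_mul_of_nonneg_left h3 (Nat.cast_nonneg (α := ℝ) S.card)
  have h6 := mul_le_mul_of_nonneg_left h4 (Nat.cast_nonneg (α := ℝ) S.card)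
  linarith

end Geo

end Pool.Agent.Lib.MP_9f1016_co
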