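import Pool.Agent.Lib.MP_9f1016_co.Affine
import Pool.Agent.Lib.MP_9f1016_co.Space

/-!
# Points on the moment curve
-/

namespace Pool.Agent.Lib.MP_9f1016_co

open Finset Module

/-- the moment curve -/
noncomputable def mom (t : ℕ) : EuclideanSpace ℝ (Fin 3) := !₂[(t : ℝ), (t : ℝ) ^ 2, (t : ℝ) ^ 3]

theorem mom_inj : Function.Injective mom := by
  intro a b h
  have := congrArg (fun v : EuclideanSpace ℝ (Fin 3) => v 0) h
  simpa [mom] using this

theorem span_zero (s : Set (EuclideanSpace ℝ (Fin 3))) (c0 c1 c2 c3 : ℝ)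
    (h : ∀ v ∈ s, c0 * v 0 + c1 * v 1 + c2 * v 2 + c3 = 0) {x : EuclideanSpace ℝ (Fin 3)}
    (hx : x ∈ affineSpan ℝ s) : c0 * x 0 + c1 * x 1 + c2 * x 2 + c3 = 0 := by
  refine affineSpan_induction (p := fun x => c0 * x 0 + c1 * x 1 + c2 * x 2 + c3 = 0) hx h ?_
  intro c u v w hu hv hw
  simp only [vsub_eq_sub, vadd_eq_add, PiLp.add_apply, PiLp.smul_apply, PiLp.sub_apply,
    smul_eq_mul]
  linear_combination c * hu - c * hv + hw

theorem mom_line {a b d : ℕ}
    (h : mom d ∈ affineSpan ℝ ({mom a, mom b} : Set (EuclideanSpace ℝ (Fin 3)))) :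
    d = a ∨ d = b := by
  have h1 := span_zero _ (-((a : ℝ) + b)) 1 0 (a * b) (by
    intro v hv
    simp only [Set.mem_insert_iff, Set.mem_singleton_iff] at hv
    rcases hv with rfl | rfl <;> simp [mom] <;> ring) h
  have h2 : ((d : ℝ) - a) * (d - b) = 0 := by
    simp [mom] at h1
    linarith
  simp only [mul_eq_zero, sub_eq_zero, Nat.cast_inj] at h2
  exact h2

theorem mom_plane {a b c d : ℕ}
    (h : mom d ∈ affineSpan ℝ ({mom a, mom b, mom c} : Set (EuclideanSpace ℝ (Fin 3)))) :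
    d = a ∨ d = b ∨ d = c := by
  have h1 := span_zero _ ((a : ℝ) * b + b * c + c * a) (-((a : ℝ) + b + c)) 1 (-(a * b * c)) (by
    intro v hv
    simp only [Set.mem_insert_iff, Set.mem_singleton_iff] at hv
    rcases hv with rfl | rfl | rfl <;> simp [mom] <;> ring) h
  have h2 : ((d : ℝ) - a) * ((d - b) * (d - c)) = 0 := by
    simp [mom] at h1
    linarith
  simp only [mul_eq_zero, sub_eq_zero, Nat.cast_inj] at h2
  exact h2

open Classical in
/-- the first `n` integer points of the moment curve -/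
noncomputable def momSet (n : ℕ) : Finset (EuclideanSpace ℝ (Fin 3)) := (range n).image mom

theorem mem_momSet {n : ℕ} {x : EuclideanSpace ℝ (Fin 3)} :
    x ∈ momSet n ↔ ∃ t, t < n ∧ mom t = x := by
  simp [momSet]

theorem card_momSet (n : ℕ) : (momSet n).card = n := by
  rw [momSet, card_image_of_injective _ mom_inj, card_range]

theorem choose_le_planes (n : ℕ) : n.choose 3 ≤ ((affGeo _).planes (momSet n)).card := by
  classical
  rw [← card_range n, ← card_powersetCard, card_range]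
  refine card_le_card_of_surjOn (fun P => (range n).filter fun t => mom t ∈ P) ?_
  intro s hs
  rw [mem_coe, mem_powersetCard] at hs
  obtain ⟨a, b, c, hab, hac, hbc, rfl⟩ := card_eq_three.1 hs.2
  have ha : a < n := mem_range.1 (hs.1 (by simp))
  have hb : b < n := mem_range.1 (hs.1 (by simp))
  have hc : c < n := mem_range.1 (hs.1 (by simp))
  refine ⟨affineSpan ℝ {mom a, mom b, mom c}, ?_, ?_⟩
  · refine mem_coe.2 (Geo.mem_planes.2 ⟨mom a, mem_momSet.2 ⟨a, ha, rfl⟩, mom b,
      mem_momSet.2 ⟨b, hb, rfl⟩, mom c, mem_momSet.2 ⟨c, hc, rfl⟩, mom_inj.ne hab, fun h => ?_, rfl⟩)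
    rcases mom_line h with h | h
    · exact hac h.symm
    · exact hbc h.symm
  · ext t
    simp only [mem_filter, mem_range, mem_insert, mem_singleton]
    constructor
    · exact fun h => mom_plane h.2
    · rintro (rfl | rfl | rfl)
      · exact ⟨ha, mem_affineSpan ℝ (by simp)⟩
      · exact ⟨hb, mem_affineSpan ℝ (by simp)⟩
      · exact ⟨hc, mem_affineSpan ℝ (by simp)⟩

theorem two_lines_le {α Λ Ψ : Type*} (G : Geo α Λ Ψ) (S : Finset α) :
    2 * ((G.lines S).card : ℝ) ≤ S.card * (S.card - 1) := by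
  rw [← Geo.sum_sq (G := G) (Subset.refl S)]
  have : ∑ _L ∈ G.lines S, (2 : ℝ) ≤
      ∑ L ∈ G.lines S, ((G.pts S L).card : ℝ) * ((G.pts S L).card - 1) := by
    refine sum_le_sum fun L hL => ?_
    have : (2 : ℝ) ≤ (G.pts S L).card := by exact_mod_cast Geo.two_le_pts hL
    nlinarith
  rw [sum_const, nsmul_eq_mul] at this
  linarith

theorem momSet_not_coplanar {n : ℕ} (hn : 4 ≤ n) :
    ¬ Coplanar ℝ (momSet n : Set (EuclideanSpace ℝ (Fin 3))) := by
  intro h
  rw [coplanar_iff_finrank_le_two, ← direction_affineSpan] at h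
  have hm : ∀ t, t < 4 → mom t ∈ affineSpan ℝ (momSet n : Set (EuclideanSpace ℝ (Fin 3))) :=
    fun t ht => mem_affineSpan ℝ (mem_coe.2 (mem_momSet.2 ⟨t, by omega, rfl⟩))
  have h1 := span_three_eq (p := mom 0) (q := mom 1) (r := mom 2)
    (not_collinear_iff.2 ⟨mom_inj.ne (by omega), fun h => by have := mom_line h; omega⟩) h
    (hm 0 (by omega)) (hm 1 (by omega)) (hm 2 (by omega))
  have h2 := hm 3 (by omega)
  rw [← h1] at h2
  have := mom_plane h2
  omega

theorem card_mom_line (n : ℕ) (L : AffineSubspace ℝ (EuclideanSpace ℝ (Fin 3)))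
    (hL : finrank ℝ L.direction = 1) [DecidablePred fun t => mom t ∈ L] :
    ((range n).filter fun t => mom t ∈ L).card ≤ 2 := by
  by_contra h
  obtain ⟨a, ha, b, hb, c, hc, hab, hac, hbc⟩ := two_lt_card.1 (not_le.1 h)
  rw [mem_filter] at ha hb hc
  have hle := affineSpan_pair_le_of_mem_of_mem ha.2 hb.2
  have he : affineSpan ℝ {mom a, mom b} = L := by
    refine AffineSubspace.eq_of_direction_eq_of_nonempty_of_le ?_
      ⟨mom a, left_mem_affineSpan_pair ℝ _ _⟩ hle
    exact Submodule.eq_of_le_of_finrank_le (AffineSubspace.direction_le hle)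
      (hL.trans (finrank_two (mom_inj.ne hab)).symm).le
  rw [← he] at hc
  have := mom_line hc.2
  omega

theorem momSet_not_subset {n : ℕ} (hn : 5 ≤ n) (L M : AffineSubspace ℝ (EuclideanSpace ℝ (Fin 3)))
    (hL : finrank ℝ L.direction = 1) (hM : finrank ℝ M.direction = 1) :
    ¬ (momSet n : Set (EuclideanSpace ℝ (Fin 3))) ⊆ (L : Set _) ∪ (M : Set _) := by
  classical
  intro h
  have h1 := card_mom_line n L hL
  have h2 := card_mom_line n M hM
  have h3 : range n ⊆ ((range n).filter fun t => mom t ∈ L) ∪ (range n).filter fun t => mom t ∈ M := by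
    intro t ht
    rcases h (mem_coe.2 (mem_momSet.2 ⟨t, mem_range.1 ht, rfl⟩)) with h | h
    · exact mem_union_left _ (mem_filter.2 ⟨ht, h⟩)
    · exact mem_union_right _ (mem_filter.2 ⟨ht, h⟩)
  have h4 := (card_le_card h3).trans (card_union_le _ _)
  rw [card_range] at h4
  omega

theorem planes_pos {V : Type*} [AddCommGroup V] [Module ℝ V] {S : Finset V}
    (h : ¬ Coplanar ℝ (S : Set V)) : 0 < S.card ∧ 0 < ((affGeo V).planes S).card := by
  have hc : ¬ Collinear ℝ (S : Set V) := fun hc => h hc.coplanar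
  have hne : S.Nonempty := by
    rw [nonempty_iff_ne_empty]
    rintro rfl
    exact hc (by simpa using collinear_empty ℝ V)
  refine ⟨hne.card_pos, card_pos.2 ?_⟩
  obtain ⟨p, hp⟩ := hne
  by_contra h0
  apply hc
  rw [collinear_iff_of_mem (mem_coe.2 hp)]
  by_cases h1 : ∃ q ∈ S, p ≠ q
  · obtain ⟨q, hq, hpq⟩ := h1
    refine ⟨q - p, fun r hr => ?_⟩
    have : r ∈ affineSpan ℝ ({p, q} : Set V) := by
      by_contra hn
      exact h0 ⟨_, Geo.mem_planes.2 ⟨p, hp, q, hq, r, hr, hpq, hn, rfl⟩⟩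
    obtain ⟨t, ht⟩ := mem_line_iff.1 this
    exact ⟨t, by rw [← ht]; simp⟩
  · push Not at h1
    exact ⟨0, fun r hr => ⟨0, by simp [h1 r hr]⟩⟩

theorem ratio_mom {n : ℕ} (hn : 3 ≤ n) :
    (((affGeo _).lines (momSet n)).card : ℝ) ^ 2 /
      ((momSet n).card * ((affGeo _).planes (momSet n)).card) ≤ 3 / 2 + 3 / 2 / (n - 2) := by
  have h1 := two_lines_le (affGeo _) (momSet n)
  have h2 : ((n.choose 3 : ℕ) : ℝ) ≤ ((affGeo _).planes (momSet n)).card := by
    exact_mod_cast choose_le_planes n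
  have h3 : ((n.choose 3 : ℕ) : ℝ) = n * (n - 1) * (n - 2) / 6 := by
    obtain ⟨m, rfl⟩ : ∃ m, n = m + 2 := ⟨n - 2, by omega⟩
    have := Nat.descFactorial_eq_factorial_mul_choose (m + 2) 3
    simp only [Nat.descFactorial_succ, Nat.descFactorial_zero, Nat.factorial] at this
    have e : ((m : ℝ) * ((m + 1) * (m + 2))) = 6 * ((m + 2).choose 3 : ℕ) := by
      exact_mod_cast (by simpa using this)
    push_cast
    linarith
  rw [card_momSet] at h1 ⊢
  have hn' : (3 : ℝ) ≤ n := by exact_mod_cast hn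
  have p1 : (0 : ℝ) < n - 1 := by linarith
  have p2 : (0 : ℝ) < n - 2 := by linarith
  rw [h3] at h2
  calc _ ≤ ((n : ℝ) * (n - 1) / 2) ^ 2 / (n * (n * (n - 1) * (n - 2) / 6)) := by
        refine div_le_div₀ (by positivity) (pow_le_pow_left₀ (by positivity) (by linarith) 2)
          (by positivity) (mul_le_mul_of_nonneg_left h2 (by positivity))
    _ = _ := by
        field_simp
        ring

end Pool.Agent.Lib.MP_9f1016_co
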