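import Pool.Agent.Lib.MP_9f1016_co.Space

/-!
# The sharp inequality `3 (n - 1) n p ≤ 2 (n - 2) l ^ 2`
-/

namespace Pool.Agent.Lib.MP_9f1016_co

open Finset

namespace Geo

variable {α Λ Ψ : Type*} {G : Geo α Λ Ψ}

open Classical

theorem pair_ineq_sharp {S : Finset α} {x y : α} (hx : x ∈ S) (hy : y ∈ S) :
    (G.rho S x - G.rho S y) ^ 2 ≤ (S.card - 2) * ∑ P ∈ G.book S x y,
      (G.rho (G.sec S P) x - G.rho (G.sec S P) y) ^ 2 /
        ((G.sec S P).card - G.kk (G.sec S P) (G.ln x y)) := by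
  by_cases hxy : x = y
  · simp [hxy]
  have h1 := rho_book (G := G) hx hy hxy
  have h2 := rho_book (G := G) hy hx (Ne.symm hxy)
  have hb : G.book S y x = G.book S x y := by
    simp only [book, and_comm]
  rw [hb, ← ln_comm hxy] at h2
  have h3 : G.rho S x - G.rho S y =
      ∑ P ∈ G.book S x y, (G.rho (G.sec S P) x - G.rho (G.sec S P) y) := by
    rw [sum_sub_distrib] at h1 h2 ⊢
    linarith
  have h4 := sum_book (G := G) hx hy hxy (fun _ => 1)
  simp only [card_off] at h4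
  have hpos : ∀ P ∈ G.book S x y, (0 : ℝ) < (G.sec S P).card - G.kk (G.sec S P) (G.ln x y) := by
    intro P hP
    rw [book, mem_filter] at hP
    have := kk_lt (sec_nc hP.1) (ln_mem (mem_sec.2 ⟨hx, hP.2.1⟩) (mem_sec.2 ⟨hy, hP.2.2⟩) hxy)
    rw [sub_pos, kk]
    exact_mod_cast this
  have h5 := sum_sq_le_sum_mul_sum_of_sq_le_mul (G.book S x y)
    (r := fun P => G.rho (G.sec S P) x - G.rho (G.sec S P) y)
    (f := fun P => ((G.sec S P).card : ℝ) - G.kk (G.sec S P) (G.ln x y))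
    (g := fun P => (G.rho (G.sec S P) x - G.rho (G.sec S P) y) ^ 2 /
        ((G.sec S P).card - G.kk (G.sec S P) (G.ln x y)))
    (fun P hP => (hpos P hP).le) (fun P hP => div_nonneg (sq_nonneg _) (hpos P hP).le)
    (fun P hP => by rw [mul_div_cancel₀ _ (hpos P hP).ne'])
  rw [h3]
  refine h5.trans (mul_le_mul_of_nonneg_right ?_
    (sum_nonneg fun P hP => div_nonneg (sq_nonneg _) (hpos P hP).le))
  linarith [two_le_kk (ln_mem (G := G) hx hy hxy)]

theorem sum_planes_eq (S : Finset α) :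
    ∑ P ∈ G.planes S, (∑ x ∈ G.sec S P, G.rho (G.sec S P) x ^ 2 -
      2 * ∑ L ∈ G.lines (G.sec S P), 2 / G.kk (G.sec S P) L) =
      ∑ x ∈ S, G.rho S x ^ 2 - 2 * ∑ L ∈ G.lines S, 2 / G.kk S L := by
  simp only [← sum_wt_mul]
  rw [← swap_book S (fun P x y => G.wt (G.sec S P) x y *
    (G.rho (G.sec S P) x - 2 / G.kk (G.sec S P) (G.ln x y)))]
  have h1 : ∀ x ∈ S, ∀ y ∈ S, ∑ P ∈ G.book S x y, G.wt (G.sec S P) x y *
      (G.rho (G.sec S P) x - 2 / G.kk (G.sec S P) (G.ln x y)) =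
      G.wt S x y * (G.rho S x - 2 / G.kk S (G.ln x y)) := by
    intro x hx y hy
    by_cases hxy : x = y
    · simp [wt, hxy]
    rw [rho_book hx hy hxy, mul_sum]
    refine sum_congr rfl fun P hP => ?_
    rw [book, mem_filter] at hP
    rw [wt_sec hP.2.1 hP.2.2, kk_sec hP.2.1 hP.2.2]
  rw [sum_congr rfl fun x hx => sum_congr rfl (h1 x hx), sum_wt_mul]

theorem lines_sq_le (S : Finset α) :
    2 * ((G.lines S).card : ℝ) ^ 2 ≤
      (∑ L ∈ G.lines S, 2 / G.kk S L) * (S.card * (S.card - 1)) := by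
  have h := sum_sq_le_sum_mul_sum_of_sq_le_mul (G.lines S) (r := fun _ => (2 : ℝ))
    (f := fun L => 2 / G.kk S L) (g := fun L => 2 * (G.kk S L * (G.kk S L - 1)))
    (fun L hL => (two_div_le (two_le_kk hL)).1)
    (fun L hL => by have := two_le_kk hL; nlinarith)
    (fun L hL => by
      have h2 := two_le_kk hL
      have e : 2 / G.kk S L * (2 * (G.kk S L * (G.kk S L - 1))) = 4 * (G.kk S L - 1) := by
        field_simp
        ring
      rw [e]
      linarith)
  have h1 : ∑ L ∈ G.lines S, G.kk S L * (G.kk S L - 1) = S.card * (S.card - 1) :=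
    sum_sq (G := G) (Subset.refl S)
  rw [← mul_sum, h1, sum_const, nsmul_eq_mul] at h
  linarith

theorem sharp (S : Finset α) (hn : 3 ≤ S.card) :
    3 * ((S.card : ℝ) - 1) * (S.card * (G.planes S).card) ≤
      2 * (S.card - 2) * ((G.lines S).card : ℝ) ^ 2 := by
  have hn' : (3 : ℝ) ≤ S.card := by exact_mod_cast hn
  have h1 := sum_sq_sub S (G.rho S)
  rw [sum_rho] at h1
  have h0 : 0 ≤ ∑ x ∈ S, ∑ y ∈ S, (G.rho S x - G.rho S y) ^ 2 :=
    sum_nonneg fun _ _ => sum_nonneg fun _ _ => sq_nonneg _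
  have h2 := sum_le_sum fun x hx => sum_le_sum fun y hy => pair_ineq_sharp (G := G) (S := S) hx hy
  simp only [← mul_sum] at h2
  rw [swap_book S (fun P x y => (G.rho (G.sec S P) x - G.rho (G.sec S P) y) ^ 2 /
        ((G.sec S P).card - G.kk (G.sec S P) (G.ln x y)))] at h2
  have h3 := sum_le_sum fun P (hP : P ∈ G.planes S) => plane_ineq (sec_nc hP)
  rw [← mul_sum, sum_sub_distrib, sum_const, nsmul_eq_mul, sum_planes_eq] at h3
  have h4 := h2.trans (mul_le_mul_of_nonneg_left h3 (by linarith))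
  have h5 := lines_sq_le (G := G) S
  rw [h1] at h0 h4
  generalize (S.card : ℝ) = n at *
  generalize ((G.planes S).card : ℝ) = p at *
  generalize ((G.lines S).card : ℝ) = l at *
  generalize ∑ x ∈ S, G.rho S x ^ 2 = Q at *
  generalize ∑ L ∈ G.lines S, 2 / G.kk S L = W at *
  have a1 := mul_le_mul_of_nonneg_left h4 (by nlinarith : 0 ≤ n * (n - 1))
  have a2 := mul_le_mul_of_nonneg_left h0 (by linarith : 0 ≤ n - 1)
  have a3 := mul_le_mul_of_nonneg_left h5 (by linarith : 0 ≤ n - 2)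
  refine le_of_mul_le_mul_left ?_ (by linarith : 0 < n - 2)
  linarith

end Geo

end Pool.Agent.Lib.MP_9f1016_co
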