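import Pool.Agent.Lib.MP_9f1016_co.Moment
import Pool.Agent.Lib.MP_9f1016_co.Sharp

/-!
# Points on the moment curve in every dimension at least three
-/

namespace Pool.Agent.Lib.MP_9f1016_co.Dim

open Finset Module

variable {D : ℕ}

/-- the moment curve -/
noncomputable def mom (D t : ℕ) : EuclideanSpace ℝ (Fin (D + 3)) :=
  WithLp.toLp 2 fun i => (t : ℝ) ^ ((i : ℕ) + 1)

theorem mom_inj : Function.Injective (mom D) := by
  intro a b h
  have := congrArg (fun v : EuclideanSpace ℝ (Fin (D + 3)) => v 0) h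
  simpa [mom] using this

theorem span_zero (s : Set (EuclideanSpace ℝ (Fin (D + 3)))) (c0 c1 c2 c3 : ℝ)
    (h : ∀ v ∈ s, c0 * v 0 + c1 * v 1 + c2 * v 2 + c3 = 0) {x : EuclideanSpace ℝ (Fin (D + 3))}
    (hx : x ∈ affineSpan ℝ s) : c0 * x 0 + c1 * x 1 + c2 * x 2 + c3 = 0 := by
  refine affineSpan_induction (p := fun x => c0 * x 0 + c1 * x 1 + c2 * x 2 + c3 = 0) hx h ?_
  intro c u v w hu hv hw
  simp only [vsub_eq_sub, vadd_eq_add, PiLp.add_apply, PiLp.smul_apply, PiLp.sub_apply,
    smul_eq_mul]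
  linear_combination c * hu - c * hv + hw

theorem mom_line {a b d : ℕ}
    (h : mom D d ∈ affineSpan ℝ ({mom D a, mom D b} : Set (EuclideanSpace ℝ (Fin (D + 3))))) :
    d = a ∨ d = b := by
  have h1 := span_zero _ (-((a : ℝ) + b)) 1 0 (a * b) (by
    intro v hv
    simp only [Set.mem_insert_iff, Set.mem_singleton_iff] at hv
    rcases hv with rfl | rfl <;> simp [mom] <;> ring) h
  have h2 : ((d : ℝ) - a) * (d - b) = 0 := by
    simp [mom] at h1
    linarith
  simp only [mul_eq_zero, sub_eq_zero, Nat.cast_inj] at h2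
  exact h2

theorem mom_plane {a b c d : ℕ}
    (h : mom D d ∈ affineSpan ℝ ({mom D a, mom D b, mom D c} : Set (EuclideanSpace ℝ (Fin (D + 3))))) :
    d = a ∨ d = b ∨ d = c := by
  have h0 : 2 % (D + 3) = 2 := Nat.mod_eq_of_lt (by omega)
  have h1 := span_zero _ ((a : ℝ) * b + b * c + c * a) (-((a : ℝ) + b + c)) 1 (-(a * b * c)) (by
    intro v hv
    simp only [Set.mem_insert_iff, Set.mem_singleton_iff] at hv
    rcases hv with rfl | rfl | rfl <;> simp [mom, h0] <;> ring) h
  have h2 : ((d : ℝ) - a) * ((d - b) * (d - c)) = 0 := by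
    simp [mom, h0] at h1
    linarith
  simp only [mul_eq_zero, sub_eq_zero, Nat.cast_inj] at h2
  exact h2

open Classical in
/-- the first `n` integer points of the moment curve -/
noncomputable def momSet (D n : ℕ) : Finset (EuclideanSpace ℝ (Fin (D + 3))) := (range n).image (mom D)

theorem mem_momSet {n : ℕ} {x : EuclideanSpace ℝ (Fin (D + 3))} :
    x ∈ momSet D n ↔ ∃ t, t < n ∧ mom D t = x := by
  simp [momSet]

theorem card_momSet (n : ℕ) : (momSet D n).card = n := by
  rw [momSet, card_image_of_injective _ mom_inj, card_range]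

theorem choose_le_planes (n : ℕ) : n.choose 3 ≤ ((affGeo _).planes (momSet D n)).card := by
  classical
  rw [← card_range n, ← card_powersetCard, card_range]
  refine card_le_card_of_surjOn (fun P => (range n).filter fun t => mom D t ∈ P) ?_
  intro s hs
  rw [mem_coe, mem_powersetCard] at hs
  obtain ⟨a, b, c, hab, hac, hbc, rfl⟩ := card_eq_three.1 hs.2
  have ha : a < n := mem_range.1 (hs.1 (by simp))
  have hb : b < n := mem_range.1 (hs.1 (by simp))
  have hc : c < n := mem_range.1 (hs.1 (by simp))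
  refine ⟨affineSpan ℝ {mom D a, mom D b, mom D c}, ?_, ?_⟩
  · refine mem_coe.2 (Geo.mem_planes.2 ⟨mom D a, mem_momSet.2 ⟨a, ha, rfl⟩, mom D b,
      mem_momSet.2 ⟨b, hb, rfl⟩, mom D c, mem_momSet.2 ⟨c, hc, rfl⟩, mom_inj.ne hab, fun h => ?_, rfl⟩)
    rcases mom_line h with h | h
    · exact hac h.symm
    · exact hbc h.symm
  · ext t
    simp only [mem_filter, mem_range, mem_insert, mem_singleton]
    constructor
    · exact fun h => mom_plane h.2
    · rintro (rfl | rfl | rfl)
      · exact ⟨ha, mem_affineSpan ℝ (by simp)⟩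
      · exact ⟨hb, mem_affineSpan ℝ (by simp)⟩
      · exact ⟨hc, mem_affineSpan ℝ (by simp)⟩

theorem momSet_not_coplanar {n : ℕ} (hn : 4 ≤ n) :
    ¬ Coplanar ℝ (momSet D n : Set (EuclideanSpace ℝ (Fin (D + 3)))) := by
  intro h
  rw [coplanar_iff_finrank_le_two, ← direction_affineSpan] at h
  have hm : ∀ t, t < 4 → mom D t ∈ affineSpan ℝ (momSet D n : Set (EuclideanSpace ℝ (Fin (D + 3)))) :=
    fun t ht => mem_affineSpan ℝ (mem_coe.2 (mem_momSet.2 ⟨t, by omega, rfl⟩))
  have h1 := span_three_eq (p := mom D 0) (q := mom D 1) (r := mom D 2)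
    (not_collinear_iff.2 ⟨mom_inj.ne (by omega), fun h => by have := mom_line h; omega⟩) h
    (hm 0 (by omega)) (hm 1 (by omega)) (hm 2 (by omega))
  have h2 := hm 3 (by omega)
  rw [← h1] at h2
  have := mom_plane h2
  omega

theorem card_mom_line (n : ℕ) (L : AffineSubspace ℝ (EuclideanSpace ℝ (Fin (D + 3))))
    (hL : finrank ℝ L.direction = 1) [DecidablePred fun t => mom D t ∈ L] :
    ((range n).filter fun t => mom D t ∈ L).card ≤ 2 := by
  by_contra h
  obtain ⟨a, ha, b, hb, c, hc, hab, hac, hbc⟩ := two_lt_card.1 (not_le.1 h)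
  rw [mem_filter] at ha hb hc
  have hle := affineSpan_pair_le_of_mem_of_mem ha.2 hb.2
  have he : affineSpan ℝ {mom D a, mom D b} = L := by
    refine AffineSubspace.eq_of_direction_eq_of_nonempty_of_le ?_
      ⟨mom D a, left_mem_affineSpan_pair ℝ _ _⟩ hle
    exact Submodule.eq_of_le_of_finrank_le (AffineSubspace.direction_le hle)
      (hL.trans (finrank_two (mom_inj.ne hab)).symm).le
  rw [← he] at hc
  have := mom_line hc.2
  omega

theorem momSet_not_subset {n : ℕ} (hn : 5 ≤ n) (L M : AffineSubspace ℝ (EuclideanSpace ℝ (Fin (D + 3))))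
    (hL : finrank ℝ L.direction = 1) (hM : finrank ℝ M.direction = 1) :
    ¬ (momSet D n : Set (EuclideanSpace ℝ (Fin (D + 3)))) ⊆ (L : Set _) ∪ (M : Set _) := by
  classical
  intro h
  have h1 := card_mom_line n L hL
  have h2 := card_mom_line n M hM
  have h3 : range n ⊆ ((range n).filter fun t => mom D t ∈ L) ∪ (range n).filter fun t => mom D t ∈ M := by
    intro t ht
    rcases h (mem_coe.2 (mem_momSet.2 ⟨t, mem_range.1 ht, rfl⟩)) with h | h
    · exact mem_union_left _ (mem_filter.2 ⟨ht, h⟩)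
    · exact mem_union_right _ (mem_filter.2 ⟨ht, h⟩)
  have h4 := (card_le_card h3).trans (card_union_le _ _)
  rw [card_range] at h4
  omega

theorem ratio_mom {n : ℕ} (hn : 3 ≤ n) :
    (((affGeo _).lines (momSet D n)).card : ℝ) ^ 2 /
      ((momSet D n).card * ((affGeo _).planes (momSet D n)).card) ≤ 3 / 2 + 3 / 2 / (n - 2) := by
  have h1 := two_lines_le (affGeo _) (momSet D n)
  have h2 : ((n.choose 3 : ℕ) : ℝ) ≤ ((affGeo _).planes (momSet D n)).card := by
    exact_mod_cast choose_le_planes n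
  have h3 : ((n.choose 3 : ℕ) : ℝ) = n * (n - 1) * (n - 2) / 6 := by
    obtain ⟨m, rfl⟩ : ∃ m, n = m + 2 := ⟨n - 2, by omega⟩
    have := Nat.descFactorial_eq_factorial_mul_choose (m + 2) 3
    simp only [Nat.descFactorial_succ, Nat.descFactorial_zero, Nat.factorial] at this
    have e : ((m : ℝ) * ((m + 1) * (m + 2))) = 6 * ((m + 2).choose 3 : ℕ) := by
      exact_mod_cast (by simpa using this)
    push_cast
    linarith
  rw [card_momSet] at h1 ⊢
  have hn' : (3 : ℝ) ≤ n := by exact_mod_cast hn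
  have p1 : (0 : ℝ) < n - 1 := by linarith
  have p2 : (0 : ℝ) < n - 2 := by linarith
  rw [h3] at h2
  calc _ ≤ ((n : ℝ) * (n - 1) / 2) ^ 2 / (n * (n * (n - 1) * (n - 2) / 6)) := by
        refine div_le_div₀ (by positivity) (pow_le_pow_left₀ (by positivity) (by linarith) 2)
          (by positivity) (mul_le_mul_of_nonneg_left h2 (by positivity))
    _ = _ := by
        field_simp
        ring

theorem ratio_low {V : Type*} [AddCommGroup V] [Module ℝ V] {S : Finset V}
    (h : ¬ Coplanar ℝ (S : Set V)) : (3 : ℝ) ≤ S.card ∧ 3 / 2 + 3 / 2 / ((S.card : ℝ) - 2) ≤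
      (((affGeo V).lines S).card : ℝ) ^ 2 / (S.card * ((affGeo V).planes S).card) := by
  classical
  obtain ⟨h1, h2⟩ := planes_pos h
  have h3 : 3 ≤ S.card := by
    obtain ⟨P, hP⟩ := card_pos.1 h2
    obtain ⟨p, hp, q, hq, r, hr, hpq, hn, -⟩ := Geo.mem_planes.1 hP
    refine two_lt_card.2 ⟨p, hp, q, hq, r, hr, hpq, ?_, ?_⟩
    · rintro rfl
      exact hn ((affGeo V).on_left _ _)
    · rintro rfl
      exact hn ((affGeo V).on_right _ _)
  have h4 : (3 : ℝ) ≤ S.card := by exact_mod_cast h3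
  refine ⟨h4, ?_⟩
  have h5 := Geo.sharp (G := affGeo V) S h3
  have h6 : (0 : ℝ) < (S.card : ℝ) - 2 := by linarith
  have e : 3 / 2 + 3 / 2 / ((S.card : ℝ) - 2) = 3 * (S.card - 1) / (2 * (S.card - 2)) := by
    field_simp
    ring
  rw [e, div_le_div_iff₀ (by positivity) (by positivity)]
  linarith

end Pool.Agent.Lib.MP_9f1016_co.Dim
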