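import Pool.Agent.Lib.MP_9f1016_co.Geo
import Pool.Agent.Lib.MP_9f1016_co.Arith

/-!
# The planar inequality
-/

namespace Pool.Agent.Lib.MP_9f1016_co

open Finset

theorem sum_sq_sub {α : Type*} (X : Finset α) (f : α → ℝ) :
    ∑ x ∈ X, ∑ y ∈ X, (f x - f y) ^ 2 =
      2 * X.card * ∑ x ∈ X, f x ^ 2 - 2 * (∑ x ∈ X, f x) ^ 2 := by
  have h : ∀ x y, (f x - f y) ^ 2 = f x ^ 2 + f y ^ 2 - 2 * (f x * f y) := fun x y => by ring
  simp only [h, sum_sub_distrib, sum_add_distrib, sum_const, nsmul_eq_mul, ← mul_sum, ← sum_mul]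
  ring

theorem var_le_range {α : Type*} (X : Finset α) (f : α → ℝ) (c b : ℝ)
    (h : ∀ x ∈ X, c ≤ f x ∧ f x ≤ c + b) :
    ∑ x ∈ X, ∑ y ∈ X, (f x - f y) ^ 2 ≤ (X.card : ℝ) ^ 2 * b ^ 2 / 2 := by
  have h1 := sum_sq_sub X (fun x => f x - (c + b / 2))
  simp only [sub_sub_sub_cancel_right] at h1
  have h2 : ∑ x ∈ X, (f x - (c + b / 2)) ^ 2 ≤ ∑ _x ∈ X, b ^ 2 / 4 :=
    sum_le_sum fun x hx => by nlinarith [h x hx]
  rw [sum_const, nsmul_eq_mul] at h2
  have h3 := mul_le_mul_of_nonneg_left h2 (by positivity : (0 : ℝ) ≤ 2 * X.card)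
  nlinarith [sq_nonneg (∑ x ∈ X, (f x - (c + b / 2)))]

theorem var_le_def {α : Type*} (X : Finset α) (f : α → ℝ) (c b : ℝ)
    (h : ∀ x ∈ X, c ≤ f x ∧ f x ≤ c + b) :
    ∑ x ∈ X, ∑ y ∈ X, (f x - f y) ^ 2 ≤ 2 * b * X.card * ∑ x ∈ X, (c + b - f x) := by
  have h2 : ∑ x ∈ X, ∑ y ∈ X, (f x - f y) ^ 2 ≤
      ∑ x ∈ X, ∑ y ∈ X, (b * (c + b - f x) + b * (c + b - f y)) :=
    sum_le_sum fun x hx => sum_le_sum fun y hy => by
      obtain ⟨h1, h2⟩ := h x hx
      obtain ⟨h3, h4⟩ := h y hy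
      have e1 := mul_nonneg (sub_nonneg.2 h1) (sub_nonneg.2 h2)
      have e2 := mul_nonneg (sub_nonneg.2 h3) (sub_nonneg.2 h4)
      have e3 := mul_nonneg (sub_nonneg.2 h2) (sub_nonneg.2 h4)
      nlinarith
  simp only [sum_add_distrib, sum_const, nsmul_eq_mul, ← mul_sum] at h2
  linarith

theorem var_le_sq {α : Type*} (X : Finset α) (f : α → ℝ) (h : ∀ x ∈ X, 0 ≤ f x) :
    ∑ x ∈ X, ∑ y ∈ X, (f x - f y) ^ 2 ≤ 2 * (X.card - 1) * ∑ x ∈ X, f x ^ 2 := by
  have h1 := sum_sq_sub X f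
  have h2 := sum_sq_le_sq_sum_of_nonneg h
  linarith

namespace Geo

variable {α Λ Ψ : Type*} (G : Geo α Λ Ψ)

open Classical

/-- the number of points of `T` on `L` -/
noncomputable def kk (T : Finset α) (L : Λ) : ℝ := (G.pts T L).card

/-- the weight of a point -/
noncomputable def rho (T : Finset α) (x : α) : ℝ := ∑ L ∈ G.thru T x, 2 / G.kk T L

variable {G}

theorem mem_thru {T : Finset α} {x : α} {L : Λ} : L ∈ G.thru T x ↔ L ∈ G.lines T ∧ G.on x L := by
  simp [thru]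

theorem two_le_kk {T : Finset α} {L : Λ} (hL : L ∈ G.lines T) : 2 ≤ G.kk T L := by
  unfold kk
  exact_mod_cast two_le_pts hL

theorem swap_thru (T X : Finset α) (f : α → Λ → ℝ) :
    ∑ x ∈ X, ∑ L ∈ G.thru T x, f x L = ∑ L ∈ G.lines T, ∑ x ∈ G.pts X L, f x L := by
  simp only [thru, pts, sum_filter]
  exact sum_comm

theorem sum_rho (T : Finset α) : ∑ x ∈ T, G.rho T x = 2 * (G.lines T).card := by
  unfold rho
  rw [swap_thru T T (fun _ L => 2 / G.kk T L)]
  rw [sum_congr rfl (g := fun _ => (2 : ℝ))]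
  · simp [mul_comm]
  · intro L hL
    have := two_le_kk hL
    rw [sum_const, nsmul_eq_mul]
    change G.kk T L * _ = _
    field_simp

theorem sum_star {T : Finset α} {x : α} (hx : x ∈ T) (f : α → ℝ) (h : f x = 0) :
    ∑ y ∈ T, f y = ∑ L ∈ G.thru T x, ∑ y ∈ G.pts T L, f y := by
  rw [← sum_erase T h, ← sum_fiberwise_of_maps_to (t := G.thru T x) (g := G.ln x)]
  · refine sum_congr rfl fun L hL => ?_
    rw [← sum_erase (G.pts T L) h]
    rw [mem_thru] at hL
    congr 1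
    ext y
    simp only [mem_filter, mem_erase, mem_pts]
    constructor
    · rintro ⟨⟨h1, h2⟩, rfl⟩
      exact ⟨h1, h2, G.on_right _ _⟩
    · rintro ⟨h1, h2, h3⟩
      exact ⟨⟨h1, h2⟩, eq_ln hL.1 (Ne.symm h1) hL.2 h3⟩
  · intro y hy
    rw [mem_erase] at hy
    exact mem_thru.2 ⟨ln_mem hx hy.2 hy.1.symm, G.on_left _ _⟩

theorem sum_pairs_fun (T : Finset α) (F : α → α → ℝ) (h : ∀ x, F x x = 0) :
    ∑ x ∈ T, ∑ y ∈ T, F x y =
      ∑ L ∈ G.lines T, ∑ x ∈ G.pts T L, ∑ y ∈ G.pts T L, F x y := by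
  rw [← swap_thru T T (fun x L => ∑ y ∈ G.pts T L, F x y)]
  exact sum_congr rfl fun x hx => sum_star hx _ (h x)

theorem sum_kk_thru {T : Finset α} {x : α} (hx : x ∈ T) :
    ∑ L ∈ G.thru T x, (G.kk T L - 1) = T.card - 1 := by
  have key : ∀ X : Finset α, x ∈ X → ∑ y ∈ X, (1 - if y = x then (1 : ℝ) else 0) = X.card - 1 := by
    intro X hX
    simp [sum_sub_distrib, hX]
  rw [← key T hx, sum_star (G := G) hx _ (by simp)]
  refine sum_congr rfl fun L hL => ?_
  rw [key _ (mem_pts.2 ⟨hx, (mem_thru.1 hL).2⟩)]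
  rfl

theorem two_div_le {k : ℝ} (h : 2 ≤ k) : 0 ≤ 2 / k ∧ 2 / k ≤ 1 :=
  ⟨by positivity, by rw [div_le_one (by linarith)]; exact h⟩

theorem rho_add {T : Finset α} {x : α} (hx : x ∈ T) :
    G.rho T x + ∑ L ∈ G.thru T x, (G.kk T L - 1 - 2 / G.kk T L) = T.card - 1 := by
  rw [← sum_kk_thru (G := G) hx, rho, ← sum_add_distrib]
  exact sum_congr rfl fun L _ => by ring

theorem rho_nonneg (T : Finset α) (x : α) : 0 ≤ G.rho T x :=
  sum_nonneg fun _ hL => (two_div_le (two_le_kk (mem_thru.1 hL).1)).1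

theorem rho_add_le {T : Finset α} {x : α} (hx : x ∈ T) :
    G.rho T x + ∑ L ∈ G.thru T x, (G.kk T L - 2) ≤ T.card - 1 := by
  rw [← rho_add (G := G) hx]
  have : ∑ L ∈ G.thru T x, (G.kk T L - 2) ≤ ∑ L ∈ G.thru T x, (G.kk T L - 1 - 2 / G.kk T L) :=
    sum_le_sum fun L hL => by linarith [(two_div_le (two_le_kk (mem_thru.1 hL).1)).2]
  linarith

theorem rho_le {T : Finset α} {x : α} (hx : x ∈ T) : G.rho T x ≤ T.card - 1 := by
  have h1 := rho_add_le (G := G) hx
  have h2 : 0 ≤ ∑ L ∈ G.thru T x, (G.kk T L - 2) :=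
    sum_nonneg fun L hL => by linarith [two_le_kk (mem_thru.1 hL).1]
  linarith

theorem rho_range {T : Finset α} {L : Λ} (hL : L ∈ G.lines T) {x : α} (hx : x ∈ G.pts T L) :
    2 / G.kk T L ≤ G.rho T x ∧ G.rho T x ≤ 2 / G.kk T L + (T.card - G.kk T L) := by
  rw [mem_pts] at hx
  have hL' : L ∈ G.thru T x := mem_thru.2 ⟨hL, hx.2⟩
  constructor
  · exact single_le_sum (f := fun L => 2 / G.kk T L)
      (fun _ h => (two_div_le (two_le_kk (mem_thru.1 h).1)).1) hL'
  · have h1 := rho_add (G := G) hx.1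
    have h2 := single_le_sum (f := fun L => G.kk T L - 1 - 2 / G.kk T L)
      (fun M h => by
        have := two_le_kk (mem_thru.1 h).1
        linarith [(two_div_le this).2]) hL'
    linarith

theorem card_inter_le {T : Finset α} {L M : Λ} (hL : L ∈ G.lines T) (hM : M ∈ G.lines T)
    (h : M ≠ L) : (G.pts (G.pts T L) M).card ≤ 1 := by
  rw [card_le_one]
  intro x hx y hy
  simp only [mem_pts] at hx hy
  by_contra hxy
  exact h ((eq_ln hM hxy hx.2 hy.2).symm.trans (eq_ln hL hxy hx.1.2 hy.1.2))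

theorem pts_pts (T : Finset α) (L : Λ) : G.pts (G.pts T L) L = G.pts T L := by
  ext x
  simp

theorem kk_lt {T : Finset α} (hnc : ∃ p ∈ T, ∃ q ∈ T, ∃ r ∈ T, p ≠ q ∧ ¬ G.on r (G.ln p q))
    {L : Λ} (hL : L ∈ G.lines T) : (G.pts T L).card < T.card := by
  refine card_lt_card ⟨filter_subset _ _, fun h => ?_⟩
  obtain ⟨p, hp, q, hq, r, hr, hpq, hn⟩ := hnc
  apply hn
  rw [eq_ln hL hpq (mem_pts.1 (h hp)).2 (mem_pts.1 (h hq)).2]
  exact (mem_pts.1 (h hr)).2

theorem sum_rho_sq_le (T : Finset α) :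
    ∑ x ∈ T, G.rho T x ^ 2 ≤ (∑ L ∈ G.lines T, 2 / G.kk T L) ^ 2 + (G.lines T).card := by
  set W := ∑ L ∈ G.lines T, 2 / G.kk T L with hW
  have h1 : ∑ x ∈ T, G.rho T x ^ 2 =
      ∑ L ∈ G.lines T, ∑ x ∈ G.pts T L, 2 / G.kk T L * G.rho T x := by
    rw [← swap_thru T T (fun x L => 2 / G.kk T L * G.rho T x)]
    refine sum_congr rfl fun x _ => ?_
    rw [← Finset.sum_mul, sq]
    rfl
  have h2 : ∀ L ∈ G.lines T, ∑ x ∈ G.pts T L, 2 / G.kk T L * G.rho T x ≤
      2 / G.kk T L * W + 1 := by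
    intro L hL
    have k2 := two_le_kk hL
    have e1 : ∑ x ∈ G.pts T L, G.rho T x ≤ W - 2 / G.kk T L + 2 := by
      unfold rho
      rw [swap_thru T _ (fun _ L => 2 / G.kk T L), hW, ← add_sum_erase _ _ hL,
        ← add_sum_erase _ _ hL, pts_pts, sum_const, nsmul_eq_mul]
      have e2 : ((G.pts T L).card : ℝ) * (2 / G.kk T L) = 2 := by
        change G.kk T L * _ = _
        field_simp
      have e3 : ∑ M ∈ (G.lines T).erase L, ∑ _x ∈ G.pts (G.pts T L) M, 2 / G.kk T M ≤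
          ∑ M ∈ (G.lines T).erase L, 2 / G.kk T M := by
        refine sum_le_sum fun M hM => ?_
        rw [mem_erase] at hM
        rw [sum_const, nsmul_eq_mul]
        have : ((G.pts (G.pts T L) M).card : ℝ) ≤ 1 := by
          exact_mod_cast card_inter_le hL hM.2 hM.1
        exact mul_le_of_le_one_left (two_div_le (two_le_kk hM.2)).1 this
      linarith
    rw [← mul_sum]
    have e4 := mul_le_mul_of_nonneg_left e1 (two_div_le k2).1
    nlinarith [sq_nonneg (2 / G.kk T L - 1)]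
  have h3 := sum_le_sum h2
  rw [sum_add_distrib, ← Finset.sum_mul, ← hW, sum_const, nsmul_eq_mul] at h3
  rw [h1]
  linarith

/-- the ordered variance of the weights along a line -/
noncomputable def var (G : Geo α Λ Ψ) (T : Finset α) (L : Λ) : ℝ :=
  ∑ x ∈ G.pts T L, ∑ y ∈ G.pts T L, (G.rho T x - G.rho T y) ^ 2

/-- the error term of a line -/
noncomputable def err (G : Geo α Λ Ψ) (T : Finset α) (L : Λ) : ℝ :=
  (G.kk T L - 2) * G.var T L / (2 * (T.card - G.kk T L))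

theorem err_le_range {T : Finset α} {L : Λ} (hL : L ∈ G.lines T) (h : G.kk T L < T.card) :
    G.err T L ≤ (G.kk T L - 2) * G.kk T L * G.kk T L * (T.card - G.kk T L) / 4 := by
  have h1 : G.var T L ≤ G.kk T L ^ 2 * (T.card - G.kk T L) ^ 2 / 2 :=
    var_le_range _ _ _ _ fun x hx => rho_range hL hx
  have h2 := mul_le_mul_of_nonneg_left h1 (sub_nonneg.2 (two_le_kk hL))
  rw [err, div_le_iff₀ (by linarith)]
  linarith

theorem err_le_sq {T : Finset α} {L : Λ} (hL : L ∈ G.lines T) {K b : ℝ} (hb : 0 < b)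
    (hK : G.kk T L ≤ K) (hj : (T.card : ℝ) = K + b) :
    G.err T L ≤ ∑ x ∈ G.pts T L, (K - 1) / b * G.rho T x ^ 2 * (G.kk T L - 2) := by
  have h1 : G.var T L ≤ 2 * (G.kk T L - 1) * ∑ x ∈ G.pts T L, G.rho T x ^ 2 :=
    var_le_sq _ _ fun x _ => rho_nonneg T x
  have k2 := two_le_kk hL
  have h0 : 0 ≤ ∑ x ∈ G.pts T L, G.rho T x ^ 2 := sum_nonneg fun _ _ => sq_nonneg _
  rw [← Finset.sum_mul, ← mul_sum, err, div_le_iff₀ (by linarith)]
  generalize ∑ x ∈ G.pts T L, G.rho T x ^ 2 = q at *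
  have h2 : G.kk T L - 1 ≤ (K - 1) / b * (T.card - G.kk T L) := by
    rw [div_mul_eq_mul_div, le_div_iff₀ hb]
    exact mul_le_mul (by linarith) (by linarith) hb.le (by linarith)
  have h3 := mul_le_mul_of_nonneg_left h1 (sub_nonneg.2 k2)
  have h4 := mul_le_mul_of_nonneg_left h2 (mul_nonneg (sub_nonneg.2 k2) h0)
  linarith

theorem small_line {k s j : ℝ} (hk : k = 2 ∨ 3 ≤ k) (hs : k - 1 ≤ s) (hj : k ≤ j) :
    (k - 2) * k * k * (j - k) / 4 ≤ s * (s - 1) * ((2 * j + 3) ^ 2 / 64) := by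
  rcases hk with rfl | hk
  · have : 0 ≤ s * (s - 1) := mul_nonneg (by linarith) (by linarith)
    have : 0 ≤ s * (s - 1) * ((2 * j + 3) ^ 2 / 64) := by positivity
    linarith
  · have e1 : (k - 1) * (k - 2) ≤ s * (s - 1) :=
      (mul_le_mul hs (by linarith) (by linarith) (by linarith))
    have e2 : k * k * (j - k) ≤ (k - 1) * ((2 * j + 3) ^ 2 / 16) := by
      have a1 : k * k * (j - k) ≤ (k - 1) * (k + 3 / 2) * (j - k) :=
        mul_le_mul_of_nonneg_right (by nlinarith) (by linarith)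
      have a2 : (k + 3 / 2) * (j - k) ≤ (2 * j + 3) ^ 2 / 16 := by
        nlinarith [sq_nonneg (j - 2 * k - 3 / 2)]
      have a3 := mul_le_mul_of_nonneg_left a2 (by linarith : 0 ≤ k - 1)
      linarith
    have e3 := mul_le_mul_of_nonneg_left e2 (by linarith : 0 ≤ k - 2)
    have e4 := mul_le_mul_of_nonneg_right e1 (by positivity : 0 ≤ (2 * j + 3) ^ 2 / 64)
    linarith

theorem def_line (s : ℕ) (hs : 1 ≤ s) :
    ((s : ℝ) + 1) - 1 - 2 / (s + 1) ≤ 2 / 3 * (s * (s - 1)) := by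
  have h0 : (0 : ℝ) < s + 1 := by positivity
  have : ((s : ℝ) + 1) - 1 - 2 / (s + 1) = (s * (s + 1) - 2) / (s + 1) := by
    field_simp
    ring
  rw [this, div_le_iff₀ h0]
  rcases Nat.eq_or_lt_of_le hs with rfl | h
  · norm_num
  · have h2 : (2 : ℝ) ≤ s := by exact_mod_cast h
    nlinarith [mul_nonneg (mul_nonneg (sub_nonneg.2 h2) (by linarith : (0 : ℝ) ≤ s - 1))
      (by linarith : (0 : ℝ) ≤ 2 * s + 3)]

theorem plane_core {T : Finset α}
    (hnc : ∃ p ∈ T, ∃ q ∈ T, ∃ r ∈ T, p ≠ q ∧ ¬ G.on r (G.ln p q)) :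
    2 * ∑ x ∈ T, G.rho T x ^ 2 + ∑ L ∈ G.lines T, G.err T L +
      (T.card - 2) * (2 * ∑ L ∈ G.lines T, 2 / G.kk T L + 6) ≤ 4 * ((G.lines T).card : ℝ) ^ 2 := by
  have hne : (G.lines T).Nonempty := by
    obtain ⟨p, hp, q, hq, -, -, hpq, -⟩ := hnc
    exact ⟨_, ln_mem hp hq hpq⟩
  obtain ⟨M, hM, hmax⟩ := exists_max_image _ (fun L => (G.pts T L).card) hne
  obtain ⟨b, hb⟩ : ∃ b, T.card = (G.pts T M).card + b :=
    Nat.exists_eq_add_of_le (kk_lt hnc hM).le
  have hb1 : 1 ≤ b := by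
    have := kk_lt hnc hM
    omega
  set X := G.pts T M with hX
  set Y := T \ X with hY
  have hXT : X ⊆ T := filter_subset _ _
  have hYT : Y ⊆ T := sdiff_subset
  have hYc : Y.card = b := by
    rw [hY, card_sdiff_of_subset hXT]
    omega
  have hj : (T.card : ℝ) = X.card + b := by exact_mod_cast hb
  have hkM : G.kk T M = X.card := rfl
  have hkK : ∀ L ∈ G.lines T, G.kk T L ≤ X.card := fun L hL => by
    unfold kk
    exact_mod_cast hmax L hL
  have hb1' : (1 : ℝ) ≤ b := by exact_mod_cast hb1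
  have hsplit : ∀ L, (G.pts T L).card = (G.pts X L).card + (G.pts Y L).card := by
    intro L
    have hd : Disjoint (G.pts X L) (G.pts Y L) :=
      (disjoint_sdiff (s := X) (t := T)).mono (filter_subset _ _) (filter_subset _ _)
    rw [← card_union_of_disjoint hd]
    congr 1
    ext x
    simp only [mem_pts, mem_union, hY, mem_sdiff]
    constructor
    · rintro ⟨h1, h2⟩
      by_cases h : x ∈ X
      · exact Or.inl ⟨h, h2⟩
      · exact Or.inr ⟨⟨h1, h⟩, h2⟩
    · rintro (⟨h1, h2⟩ | ⟨⟨h1, -⟩, h2⟩)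
      · exact ⟨hXT h1, h2⟩
      · exact ⟨h1, h2⟩
  have hYM : (G.pts Y M).card = 0 := by
    have := hsplit M
    rw [hX, pts_pts] at this
    omega
  have hcase : ∀ L ∈ (G.lines T).erase M,
      ((G.pts X L).card = 0 ∧ G.kk T L = (G.pts Y L).card) ∨
      ((G.pts X L).card = 1 ∧ G.kk T L = (G.pts Y L).card + 1 ∧ 1 ≤ (G.pts Y L).card) := by
    intro L hL
    rw [mem_erase] at hL
    have h1 : (G.pts X L).card ≤ 1 := card_inter_le hM hL.2 hL.1
    have h2 := two_le_pts hL.2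
    have h3 := hsplit L
    unfold kk
    rcases Nat.le_one_iff_eq_zero_or_eq_one.1 h1 with h | h
    · exact Or.inl ⟨h, by exact_mod_cast (by omega)⟩
    · exact Or.inr ⟨h, by exact_mod_cast (by omega), by omega⟩
  have s1 := sum_mul (G := G) hXT hYT disjoint_sdiff
  have s2 := sum_sq (G := G) hYT
  have s3 : ∑ L ∈ G.lines T, G.kk T L * (G.kk T L - 1) = T.card * (T.card - 1) :=
    sum_sq (G := G) (Subset.refl T)
  have s4 : (∑ L ∈ G.lines T, G.kk T L) + 3 ≤ 3 * (G.lines T).card := by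
    unfold kk
    exact_mod_cast melchior' hnc
  rw [← add_sum_erase _ _ hM, hYM, hYc] at s1 s2
  simp only [Nat.cast_zero, mul_zero, zero_mul, zero_add] at s1 s2
  have hle : (((G.lines T).erase M).card : ℝ) = (G.lines T).card - 1 := by
    rw [← card_erase_add_one hM]
    push_cast
    ring
  have hns : ∑ L ∈ (G.lines T).erase M, G.err T L ≤
      b * (b - 1) * (2 * ((X.card : ℝ) + b) + 3) ^ 2 / 64 := by
    rw [mul_div_assoc, ← s2, Finset.sum_mul, ← hj]
    refine sum_le_sum fun L hL => ?_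
    have hL' := (mem_erase.1 hL).2
    have k1 := hkK L hL'
    refine (err_le_range hL' (by linarith)).trans (small_line ?_ ?_ (by linarith))
    · rcases Nat.eq_or_lt_of_le (two_le_pts hL') with h | h
      · left
        unfold kk
        exact_mod_cast h.symm
      · right
        unfold kk
        exact_mod_cast h
    · rcases hcase L hL with h | h <;> linarith [h.2]
  rw [hj]
  refine plane_arith X.card b (G.lines T).card _ _ _ (two_le_pts hM) hb1 ?_ ?_ ?_ ?_ ?_ ?_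
    (sum_rho_sq_le T) ?_ ?_ ?_ ?_
  · have h1 : ∑ L ∈ (G.lines T).erase M, ((G.pts X L).card : ℝ) * (G.pts Y L).card ≤
        ∑ L ∈ (G.lines T).erase M, (G.kk T L - 1) := by
      refine sum_le_sum fun L hL => ?_
      have := two_le_kk (mem_erase.1 hL).2
      rcases hcase L hL with h | h <;> rw [h.1] <;> push_cast <;> linarith [h.2]
    rw [← add_sum_erase _ _ hM] at s4
    rw [sum_sub_distrib, sum_const, nsmul_eq_mul] at h1
    linarith
  · have h1 : ∑ L ∈ (G.lines T).erase M, (2 * (((G.pts X L).card : ℝ) * (G.pts Y L).card) -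
        (G.pts Y L).card * ((G.pts Y L).card - 1)) ≤ ∑ _L ∈ (G.lines T).erase M, (2 : ℝ) := by
      refine sum_le_sum fun L hL => ?_
      rcases hcase L hL with h | h <;> rw [h.1] <;> push_cast
      · have := two_le_kk (mem_erase.1 hL).2
        nlinarith [h.2]
      · rcases Nat.eq_or_lt_of_le h.2.2 with h3 | h3
        · rw [← h3]
          norm_num
        · have : (2 : ℝ) ≤ (G.pts Y L).card := by exact_mod_cast h3
          nlinarith
    rw [sum_sub_distrib, ← mul_sum, sum_const, nsmul_eq_mul] at h1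
    linarith
  · have h1 : ∑ L ∈ G.lines T, G.kk T L * (G.kk T L - 1) ≤
        ∑ L ∈ G.lines T, ((X.card + 1) * G.kk T L - 2 * X.card) := by
      refine sum_le_sum fun L hL => ?_
      nlinarith [mul_nonneg (sub_nonneg.2 (two_le_kk hL)) (sub_nonneg.2 (hkK L hL))]
    rw [sum_sub_distrib, ← mul_sum, sum_const, nsmul_eq_mul, s3, hj] at h1
    have h2 := mul_le_mul_of_nonneg_left s4 (by positivity : (0 : ℝ) ≤ X.card + 1)
    linarith
  · exact sum_nonneg fun L hL => (two_div_le (two_le_kk hL)).1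
  · have h1 : ∑ L ∈ G.lines T, 2 / G.kk T L ≤ ∑ _L ∈ G.lines T, (1 : ℝ) :=
      sum_le_sum fun L hL => (two_div_le (two_le_kk hL)).2
    simpa using h1
  · have h1 : ∑ L ∈ G.lines T, ((X.card * (X.card + 1)) * (2 / G.kk T L) +
        G.kk T L * (G.kk T L - 1)) ≤ ∑ _L ∈ G.lines T, ((X.card : ℝ) * (X.card + 1) + 2) := by
      refine sum_le_sum fun L hL => ?_
      have k1 := two_le_kk hL
      have k2 := hkK L hL
      have e1 : G.kk T L * (G.kk T L + 1) ≤ X.card * (X.card + 1) := by nlinarith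
      have e2 := mul_le_mul_of_nonneg_right e1 (sub_nonneg.2 (two_div_le k1).2)
      have e3 : G.kk T L * (G.kk T L + 1) * (1 - 2 / G.kk T L) =
          (G.kk T L + 1) * (G.kk T L - 2) := by
        field_simp
      linarith
    rw [sum_add_distrib, ← mul_sum, sum_const, nsmul_eq_mul, s3, hj] at h1
    linarith
  · have h1 : ∑ x ∈ T, G.rho T x ^ 2 ≤ ∑ x ∈ T, G.rho T x * (T.card - 1) :=
      sum_le_sum fun x hx => by nlinarith [rho_nonneg (G := G) T x, rho_le (G := G) hx]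
    rwa [← Finset.sum_mul, sum_rho, hj] at h1
  · have h1 := err_le_range hM (by linarith)
    rw [hkM, hj, add_sub_cancel_left] at h1
    rw [← add_sum_erase _ _ hM]
    linarith
  · have h1 : G.var T M ≤ 2 * (T.card - G.kk T M) * G.kk T M *
        ∑ x ∈ X, (2 / G.kk T M + (T.card - G.kk T M) - G.rho T x) :=
      var_le_def _ _ _ _ fun x hx => rho_range hM hx
    have h2 : ∑ x ∈ X, (2 / G.kk T M + (T.card - G.kk T M) - G.rho T x) =
        ∑ x ∈ X, ∑ L ∈ G.thru T x, (G.kk T L - 1 - 2 / G.kk T L) -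
          ∑ _x ∈ X, (G.kk T M - 1 - 2 / G.kk T M) := by
      rw [← sum_sub_distrib]
      exact sum_congr rfl fun x hx => by linarith [rho_add (G := G) (hXT hx)]
    have h3 : ∑ L ∈ (G.lines T).erase M, ∑ _x ∈ G.pts X L, (G.kk T L - 1 - 2 / G.kk T L) ≤
        ∑ L ∈ (G.lines T).erase M,
          2 / 3 * (((G.pts Y L).card : ℝ) * ((G.pts Y L).card - 1)) := by
      refine sum_le_sum fun L hL => ?_
      rw [sum_const, nsmul_eq_mul]
      rcases hcase L hL with h | h <;> rw [h.1] <;> push_cast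
      · have := two_le_kk (mem_erase.1 hL).2
        nlinarith [h.2]
      · rw [h.2.1, one_mul]
        exact def_line _ h.2.2
    have hXM : G.pts X M = X := pts_pts T M
    rw [swap_thru T X (fun _ L => G.kk T L - 1 - 2 / G.kk T L),
      ← add_sum_erase _ _ hM, hXM, add_sub_cancel_left] at h2
    rw [← mul_sum, s2, ← h2] at h3
    have h4 := mul_le_mul_of_nonneg_left h3
      (by nlinarith [two_le_kk hM] : (0 : ℝ) ≤ 2 * (T.card - G.kk T M) * G.kk T M)
    have h5 := mul_le_mul_of_nonneg_left (h1.trans h4) (sub_nonneg.2 (two_le_kk hM))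
    have h6 : G.err T M ≤ 2 * (X.card - 2) * X.card * b * (b - 1) / 3 := by
      rw [err, div_le_iff₀ (by linarith)]
      rw [hkM, hj, add_sub_cancel_left] at h5 ⊢
      linarith
    rw [← add_sum_erase _ _ hM]
    linarith
  · intro Φ hΦ
    have h1 : ∑ L ∈ G.lines T, G.err T L ≤ ∑ L ∈ G.lines T, ∑ x ∈ G.pts T L,
        ((X.card : ℝ) - 1) / b * G.rho T x ^ 2 * (G.kk T L - 2) :=
      sum_le_sum fun L hL => err_le_sq hL (by linarith) (hkK L hL) hj
    rw [← swap_thru T T (fun x L => ((X.card : ℝ) - 1) / b * G.rho T x ^ 2 * (G.kk T L - 2))] at h1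
    have h2 : ∑ x ∈ T, (2 * G.rho T x ^ 2 + ∑ L ∈ G.thru T x,
        ((X.card : ℝ) - 1) / b * G.rho T x ^ 2 * (G.kk T L - 2)) ≤ ∑ x ∈ T, G.rho T x * Φ := by
      refine sum_le_sum fun x hx => ?_
      have e0 := rho_nonneg (G := G) T x
      have e1 := rho_add_le (G := G) hx
      have e2 := mul_le_mul_of_nonneg_left (hΦ _ e0 (hj ▸ rho_le (G := G) hx)) e0
      have e3 : 0 ≤ ((X.card : ℝ) - 1) / b * G.rho T x ^ 2 :=
        mul_nonneg (div_nonneg (by linarith [two_le_kk hM]) (by linarith)) (sq_nonneg _)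
      have e4 := mul_le_mul_of_nonneg_left (le_sub_iff_add_le'.2 e1) e3
      rw [← mul_sum]
      rw [hj] at e4
      linarith
    rw [sum_add_distrib, ← mul_sum, ← Finset.sum_mul, sum_rho] at h2
    linarith

theorem plane_ineq {T : Finset α}
    (hnc : ∃ p ∈ T, ∃ q ∈ T, ∃ r ∈ T, p ≠ q ∧ ¬ G.on r (G.ln p q)) :
    ∑ x ∈ T, ∑ y ∈ T, (G.rho T x - G.rho T y) ^ 2 / (T.card - G.kk T (G.ln x y)) ≤
      2 * (∑ x ∈ T, G.rho T x ^ 2 - 2 * ∑ L ∈ G.lines T, 2 / G.kk T L - 6) := by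
  have h1 := plane_core hnc
  have h2 : ∑ x ∈ T, ∑ y ∈ T, (G.rho T x - G.rho T y) ^ 2 = ∑ L ∈ G.lines T, G.var T L :=
    sum_pairs_fun T _ (by simp)
  rw [sum_sq_sub, sum_rho] at h2
  have hlt : ∀ L ∈ G.lines T, G.kk T L < T.card := fun L hL => by
    unfold kk
    exact_mod_cast kk_lt hnc hL
  have h3 : ∑ x ∈ T, ∑ y ∈ T, (G.rho T x - G.rho T y) ^ 2 / (T.card - G.kk T (G.ln x y)) =
      ∑ L ∈ G.lines T, G.var T L / (T.card - G.kk T L) := by
    rw [sum_pairs_fun (G := G) T _ (by simp)]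
    refine sum_congr rfl fun L hL => ?_
    rw [var, sum_div]
    refine sum_congr rfl fun x hx => ?_
    rw [sum_div]
    refine sum_congr rfl fun y hy => ?_
    by_cases hxy : x = y
    · simp [hxy]
    · rw [eq_ln hL hxy (mem_pts.1 hx).2 (mem_pts.1 hy).2]
  have h4 : (T.card - 2) * ∑ L ∈ G.lines T, G.var T L / (T.card - G.kk T L) =
      ∑ L ∈ G.lines T, G.var T L + 2 * ∑ L ∈ G.lines T, G.err T L := by
    rw [mul_sum, mul_sum, ← sum_add_distrib]
    refine sum_congr rfl fun L hL => ?_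
    have := sub_pos.2 (hlt L hL)
    rw [err]
    field_simp
    ring
  have h5 : (0 : ℝ) < T.card - 2 := by
    obtain ⟨p, hp, q, hq, -, -, hpq, -⟩ := hnc
    linarith [hlt _ (ln_mem hp hq hpq), two_le_kk (ln_mem (G := G) hp hq hpq)]
  rw [h3]
  refine le_of_mul_le_mul_left ?_ h5
  linarith

end Geo

end Pool.Agent.Lib.MP_9f1016_co
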